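import Mathlib
import Pool.Agent.Y5.Stm

set_option autoImplicit false

/-!
NS/Y5: the wave packet.  Part A: the bumps and their supports.
-/

namespace Pool.Agent.Y784.NS

open Set Filter Topology MeasureTheory
open Pool.Agent.Y5

noncomputable section

/-- radial bump, supported in the ball of radius `1/50` -/
def beta (v : E3) : ℝ := expNegInvGlue ((1 / 50) ^ 2 - ‖v‖ ^ 2)

def P1 : E3 := WithLp.toLp 2 ![1, 0, 0]
def P2 : E3 := WithLp.toLp 2 ![1, 1, 0]
def P3 : E3 := WithLp.toLp 2 ![2, 1, 0]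

/-- main part -/
def fA (ξ : E3) : ℝ := (beta (ξ - P1) + beta (ξ + P1)) + 2 * (beta (ξ - P2) + beta (ξ + P2))

/-- tail part -/
def fH (ξ : E3) : ℝ := -(beta (ξ - P3) + beta (ξ + P3))

theorem beta_smooth : ContDiff ℝ (⊤ : ℕ∞) beta := by
  unfold beta
  exact expNegInvGlue.contDiff.comp (contDiff_const.sub (contDiff_norm_sq ℝ))

theorem beta_cont : Continuous beta := beta_smooth.continuous

theorem beta_nonneg (v : E3) : 0 ≤ beta v := expNegInvGlue.nonneg _

theorem beta_ne {v : E3} (h : beta v ≠ 0) : ‖v‖ < 1 / 50 := by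
  by_contra hcon
  apply h
  apply expNegInvGlue.zero_of_nonpos
  have : (1 / 50 : ℝ) ^ 2 ≤ ‖v‖ ^ 2 := pow_le_pow_left₀ (by norm_num) (not_lt.mp hcon) 2
  linarith

theorem beta_pos {v : E3} (h : ‖v‖ < 1 / 50) : 0 < beta v := by
  apply expNegInvGlue.pos_of_pos
  have : ‖v‖ ^ 2 < (1 / 50 : ℝ) ^ 2 := pow_lt_pow_left₀ h (norm_nonneg _) two_ne_zero
  linarith

theorem beta_neg (v : E3) : beta (-v) = beta v := by simp [beta]

theorem beta_cpt : HasCompactSupport beta := by
  apply HasCompactSupport.intro (isCompact_closedBall (0 : E3) (1 / 50))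
  intro v hv
  by_contra h
  exact hv (by simpa using (beta_ne h).le)

theorem abs_le_norm (v : E3) (i : Fin 3) : |v i| ≤ ‖v‖ := by
  simpa using PiLp.norm_apply_le v i

/-- near `c` in the first coordinate -/
theorem beta_ne' {ξ c : E3} (h : beta (ξ - c) ≠ 0) (i : Fin 3) : |ξ i - c i| < 1 / 50 := by
  have := (abs_le_norm (ξ - c) i).trans_lt (beta_ne h)
  simpa using this

theorem beta_ne'' {ξ c : E3} (h : beta (ξ + c) ≠ 0) (i : Fin 3) : |ξ i + c i| < 1 / 50 := by
  have := (abs_le_norm (ξ + c) i).trans_lt (beta_ne h)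
  simpa using this

@[simp] theorem P1_0 : P1 0 = 1 := by simp [P1]
@[simp] theorem P1_1 : P1 1 = 0 := by simp [P1]
@[simp] theorem P2_0 : P2 0 = 1 := by simp [P2]
@[simp] theorem P2_1 : P2 1 = 1 := by simp [P2]
@[simp] theorem P3_0 : P3 0 = 2 := by simp [P3]
@[simp] theorem P3_1 : P3 1 = 1 := by simp [P3]

theorem fA_nonneg (ξ : E3) : 0 ≤ fA ξ := by
  have := beta_nonneg (ξ - P1)
  have := beta_nonneg (ξ + P1)
  have := beta_nonneg (ξ - P2)
  have := beta_nonneg (ξ + P2)
  rw [fA]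
  linarith

theorem fH_nonpos (ξ : E3) : fH ξ ≤ 0 := by
  have := beta_nonneg (ξ - P3)
  have := beta_nonneg (ξ + P3)
  rw [fH]
  linarith

theorem fA_ne {ξ : E3} (h : fA ξ ≠ 0) :
    (|ξ 0 - 1| < 1 / 50 ∧ |ξ 1| < 1 / 50) ∨ (|ξ 0 + 1| < 1 / 50 ∧ |ξ 1| < 1 / 50) ∨
    (|ξ 0 - 1| < 1 / 50 ∧ |ξ 1 - 1| < 1 / 50) ∨ (|ξ 0 + 1| < 1 / 50 ∧ |ξ 1 + 1| < 1 / 50) := by
  by_cases h1 : beta (ξ - P1) = 0
  · by_cases h2 : beta (ξ + P1) = 0
    · by_cases h3 : beta (ξ - P2) = 0
      · by_cases h4 : beta (ξ + P2) = 0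
        · exact absurd (by rw [fA, h1, h2, h3, h4]; simp) h
        · right; right; right
          have := beta_ne'' h4 0
          have := beta_ne'' h4 1
          simp_all
      · right; right; left
        have := beta_ne' h3 0
        have := beta_ne' h3 1
        simp_all
    · right; left
      have := beta_ne'' h2 0
      have := beta_ne'' h2 1
      simp_all
  · left
    have := beta_ne' h1 0
    have := beta_ne' h1 1
    simp_all

theorem fH_ne {ξ : E3} (h : fH ξ ≠ 0) :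
    (|ξ 0 - 2| < 1 / 50 ∧ |ξ 1 - 1| < 1 / 50) ∨ (|ξ 0 + 2| < 1 / 50 ∧ |ξ 1 + 1| < 1 / 50) := by
  by_cases h1 : beta (ξ - P3) = 0
  · by_cases h2 : beta (ξ + P3) = 0
    · exact absurd (by rw [fH, h1, h2]; simp) h
    · right
      have := beta_ne'' h2 0
      have := beta_ne'' h2 1
      simp_all
  · left
    have := beta_ne' h1 0
    have := beta_ne' h1 1
    simp_all

theorem fA_smooth : ContDiff ℝ (⊤ : ℕ∞) fA := by
  unfold fA
  have h1 := beta_smooth
  exact ((h1.comp (contDiff_id.sub contDiff_const)).add (h1.comp (contDiff_id.add contDiff_const))).add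
    (contDiff_const.mul ((h1.comp (contDiff_id.sub contDiff_const)).add
      (h1.comp (contDiff_id.add contDiff_const))))

theorem fH_smooth : ContDiff ℝ (⊤ : ℕ∞) fH := by
  unfold fH
  have h1 := beta_smooth
  exact ((h1.comp (contDiff_id.sub contDiff_const)).add
    (h1.comp (contDiff_id.add contDiff_const))).neg

theorem shift_cpt (c : E3) : HasCompactSupport (fun ξ => beta (ξ + c)) :=
  beta_cpt.comp_homeomorph (Homeomorph.addRight c)

theorem fA_cpt : HasCompactSupport fA := by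
  unfold fA
  have h1 := shift_cpt
  have h2 : ∀ c : E3, HasCompactSupport (fun ξ => beta (ξ - c)) := by
    intro c; simpa [sub_eq_add_neg] using h1 (-c)
  exact ((h2 P1).add (h1 P1)).add (((h2 P2).add (h1 P2)).mul_left (f := fun _ => (2 : ℝ)))

theorem fH_cpt : HasCompactSupport fH := by
  unfold fH
  have h1 := shift_cpt
  have h2 : ∀ c : E3, HasCompactSupport (fun ξ => beta (ξ - c)) := by
    intro c; simpa [sub_eq_add_neg] using h1 (-c)
  exact ((h2 P3).add (h1 P3)).neg

theorem fA_even (ξ : E3) : fA (-ξ) = fA ξ := by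
  have h1 : ∀ c : E3, beta (-ξ - c) = beta (ξ + c) := by
    intro c; rw [← beta_neg]; congr 1; abel
  have h2 : ∀ c : E3, beta (-ξ + c) = beta (ξ - c) := by
    intro c; rw [← beta_neg]; congr 1; abel
  rw [fA, fA, h1, h1, h2, h2]
  ring

theorem fH_even (ξ : E3) : fH (-ξ) = fH ξ := by
  have h1 : ∀ c : E3, beta (-ξ - c) = beta (ξ + c) := by
    intro c; rw [← beta_neg]; congr 1; abel
  have h2 : ∀ c : E3, beta (-ξ + c) = beta (ξ - c) := by
    intro c; rw [← beta_neg]; congr 1; abel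
  rw [fH, fH, h1, h2]
  ring

theorem fA_cce : Cce fA := ⟨fA_smooth, fA_cpt, fA_even⟩
theorem fH_cce : Cce fH := ⟨fH_smooth, fH_cpt, fH_even⟩

theorem fA_P1 : 0 < fA P1 := by
  have h1 : 0 < beta (P1 - P1) := beta_pos (by simp)
  have := beta_nonneg (P1 + P1)
  have := beta_nonneg (P1 - P2)
  have := beta_nonneg (P1 + P2)
  rw [fA]
  linarith

theorem fA_P2 : 0 < fA P2 := by
  have h1 : 0 < beta (P2 - P2) := beta_pos (by simp)
  have := beta_nonneg (P2 + P1)
  have := beta_nonneg (P2 - P1)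
  have := beta_nonneg (P2 + P2)
  rw [fA]
  linarith

theorem fH_P3 : fH P3 < 0 := by
  have h1 : 0 < beta (P3 - P3) := beta_pos (by simp)
  have := beta_nonneg (P3 + P3)
  rw [fH]
  linarith

/-- the squares: the four bumps of `fA` are disjoint -/
theorem fA_sq (ξ : E3) : fA ξ ^ 2 = (beta (ξ - P1) ^ 2 + beta (ξ + P1) ^ 2) +
    4 * (beta (ξ - P2) ^ 2 + beta (ξ + P2) ^ 2) := by
  have h1 : beta (ξ - P1) * beta (ξ + P1) = 0 := by
    by_contra h
    have a := abs_lt.mp (beta_ne' (left_ne_zero_of_mul h) 0)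
    have b := abs_lt.mp (beta_ne'' (right_ne_zero_of_mul h) 0)
    rw [P1_0] at a b
    linarith [a.1, b.2]
  have h2 : beta (ξ - P1) * beta (ξ - P2) = 0 := by
    by_contra h
    have a := abs_lt.mp (beta_ne' (left_ne_zero_of_mul h) 1)
    have b := abs_lt.mp (beta_ne' (right_ne_zero_of_mul h) 1)
    rw [P1_1] at a
    rw [P2_1] at b
    linarith [a.2, b.1]
  have h3 : beta (ξ - P1) * beta (ξ + P2) = 0 := by
    by_contra h
    have a := abs_lt.mp (beta_ne' (left_ne_zero_of_mul h) 0)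
    have b := abs_lt.mp (beta_ne'' (right_ne_zero_of_mul h) 0)
    rw [P1_0] at a
    rw [P2_0] at b
    linarith [a.1, b.2]
  have h4 : beta (ξ + P1) * beta (ξ - P2) = 0 := by
    by_contra h
    have a := abs_lt.mp (beta_ne'' (left_ne_zero_of_mul h) 0)
    have b := abs_lt.mp (beta_ne' (right_ne_zero_of_mul h) 0)
    rw [P1_0] at a
    rw [P2_0] at b
    linarith [a.2, b.1]
  have h5 : beta (ξ + P1) * beta (ξ + P2) = 0 := by
    by_contra h
    have a := abs_lt.mp (beta_ne'' (left_ne_zero_of_mul h) 1)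
    have b := abs_lt.mp (beta_ne'' (right_ne_zero_of_mul h) 1)
    rw [P1_1] at a
    rw [P2_1] at b
    linarith [a.1, b.2]
  have h6 : beta (ξ - P2) * beta (ξ + P2) = 0 := by
    by_contra h
    have a := abs_lt.mp (beta_ne' (left_ne_zero_of_mul h) 0)
    have b := abs_lt.mp (beta_ne'' (right_ne_zero_of_mul h) 0)
    rw [P2_0] at a b
    linarith [a.1, b.2]
  rw [fA]
  linear_combination 2 * h1 + 4 * h2 + 4 * h3 + 4 * h4 + 4 * h5 + 8 * h6

end

end Pool.Agent.Y784.NS
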