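import Mathlib
import Pool.Agent.Y784.NS.PA

set_option autoImplicit false

/-!
NS/Y5: the wave packet.  Part B: the trilinear functional.
-/

namespace Pool.Agent.Y784.NS

open Set Filter Topology MeasureTheory
open Pool.Agent.Y5

noncomputable section

/-- continuous with compact support -/
structure CC (F : E3 → ℝ) : Prop where
  cont : Continuous F
  cpt : HasCompactSupport F

theorem CC.of_cce {F : E3 → ℝ} (h : Cce F) : CC F := ⟨h.smooth.continuous, h.supp⟩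

theorem coord_cont (i : Fin 3) : Continuous (fun ξ : E3 => ξ i) := by fun_prop

/-- the kernel -/
def DD (ξ η : E3) (δ : ℝ) : ℝ :=
  (ξ 0 * η 1 - ξ 1 * η 0) * (η 0 * (ξ 0 + δ * η 0) + η 1 * (ξ 1 + δ * η 1))

def T3 (F G H : E3 → ℝ) (δ : ℝ) : ℝ := ∫ ξ, ∫ η, F ξ * G η * H (ξ + δ • η) * DD ξ η δ

def KK (F G H : E3 → ℝ) (δ : ℝ) (p : E3 × E3) : ℝ :=
  F p.1 * G p.2 * H (p.1 + δ • p.2) * DD p.1 p.2 δ

theorem DD_cont (δ : ℝ) : Continuous (fun p : E3 × E3 => DD p.1 p.2 δ) := by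
  unfold DD
  fun_prop

theorem KK_cont {F G H : E3 → ℝ} (hF : Continuous F) (hG : Continuous G) (hH : Continuous H) (δ : ℝ) :
    Continuous (KK F G H δ) := by
  unfold KK
  have := DD_cont δ
  fun_prop

theorem KK_cpt {F G : E3 → ℝ} (H : E3 → ℝ) (hF : HasCompactSupport F) (hG : HasCompactSupport G) (δ : ℝ) :
    HasCompactSupport (KK F G H δ) := by
  apply HasCompactSupport.intro (hF.isCompact.prod hG.isCompact)
  rintro ⟨ξ, η⟩ h
  rw [Set.mem_prod, not_and_or] at h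
  rcases h with h | h
  · simp [KK, image_eq_zero_of_notMem_tsupport h]
  · simp [KK, image_eq_zero_of_notMem_tsupport h]

theorem KK_int {F G H : E3 → ℝ} (hF : CC F) (hG : CC G) (hH : Continuous H) (δ : ℝ) :
    Integrable (KK F G H δ) (volume : Measure (E3 × E3)) :=
  (KK_cont hF.cont hG.cont hH δ).integrable_of_hasCompactSupport (KK_cpt H hF.cpt hG.cpt δ)

theorem T3_eq {F G H : E3 → ℝ} (hF : CC F) (hG : CC G) (hH : Continuous H) (δ : ℝ) :
    T3 F G H δ = ∫ p : E3 × E3, KK F G H δ p := by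
  have h := integral_prod (μ := (volume : Measure E3)) (ν := (volume : Measure E3))
    (KK F G H δ) (KK_int hF hG hH δ)
  exact h.symm

/-- antisymmetry -/
theorem T3_anti {F G H : E3 → ℝ} (hG : ∀ ξ, G (-ξ) = G ξ) (hH : ∀ ξ, H (-ξ) = H ξ) :
    T3 F G H 1 = -T3 F H G 1 := by
  rw [T3, T3, ← integral_neg]
  refine integral_congr_ae (Eventually.of_forall fun ξ => ?_)
  simp only []
  rw [← integral_sub_left_eq_self _ volume (-ξ), ← integral_neg]
  refine integral_congr_ae (Eventually.of_forall fun η => ?_)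
  simp only [DD, one_smul, PiLp.sub_apply, PiLp.neg_apply, one_mul]
  have e1 : ξ + (-ξ - η) = -η := by abel
  have e2 : -ξ - η = -(ξ + η) := by abel
  rw [e1, hH, e2, hG]
  ring

/-- scaling of an integral over `E3` -/
theorem scl (f : E3 → ℝ) (a : ℝ) (ha : 0 < a) : ∫ ξ : E3, f (a • ξ) = (a ^ 3)⁻¹ * ∫ ξ : E3, f ξ := by
  rw [Measure.integral_comp_smul, finrank_euclideanSpace_fin, abs_of_pos (by positivity), smul_eq_mul]

/-- scaling of the outer variables -/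
theorem T3_scale_out (F G H : E3 → ℝ) (δ a c c' : ℝ) (ha : 0 < a) :
    T3 (fun ξ => c * F (a • ξ)) G (fun ξ => c' * H (a • ξ)) δ = c * c' * (a ^ 5)⁻¹ * T3 F G H (a * δ) := by
  have h1 : T3 (fun ξ => c * F (a • ξ)) G (fun ξ => c' * H (a • ξ)) δ =
      ∫ ξ : E3, (fun ξ' : E3 => ∫ η : E3, (c * c' * (a ^ 2)⁻¹) *
        (F ξ' * G η * H (ξ' + (a * δ) • η) * DD ξ' η (a * δ))) (a • ξ) := by
    rw [T3]
    refine integral_congr_ae (Eventually.of_forall fun ξ => ?_)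
    refine integral_congr_ae (Eventually.of_forall fun η => ?_)
    simp only [DD, PiLp.smul_apply, smul_eq_mul, smul_add, smul_smul]
    field_simp
  refine h1.trans ((scl (fun ξ' : E3 => ∫ η : E3, (c * c' * (a ^ 2)⁻¹) *
        (F ξ' * G η * H (ξ' + (a * δ) • η) * DD ξ' η (a * δ))) a ha).trans ?_)
  simp only [integral_const_mul]
  rw [T3]
  field_simp

/-- scaling of the inner variable -/
theorem T3_scale_in (F G H : E3 → ℝ) (δ a c : ℝ) (ha : 0 < a) :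
    T3 F (fun ξ => c * G (a • ξ)) H δ = c * (a ^ 5)⁻¹ * T3 F G H (a⁻¹ * δ) := by
  have h1 : ∀ ξ : E3, ∫ η : E3, F ξ * (c * G (a • η)) * H (ξ + δ • η) * DD ξ η δ =
      c * (a ^ 5)⁻¹ * ∫ η : E3, F ξ * G η * H (ξ + (a⁻¹ * δ) • η) * DD ξ η (a⁻¹ * δ) := by
    intro ξ
    have h2 : ∫ η : E3, F ξ * (c * G (a • η)) * H (ξ + δ • η) * DD ξ η δ =
        ∫ η : E3, (fun η' : E3 => (c * (a ^ 2)⁻¹) *
        (F ξ * G η' * H (ξ + (a⁻¹ * δ) • η') * DD ξ η' (a⁻¹ * δ))) (a • η) := by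
      refine integral_congr_ae (Eventually.of_forall fun η => ?_)
      have e1 : (a⁻¹ * δ) • a • η = δ • η := by
        rw [smul_smul]; congr 1; field_simp
      simp only [DD, PiLp.smul_apply, smul_eq_mul, e1]
      field_simp
    refine h2.trans ((scl (fun η' : E3 => (c * (a ^ 2)⁻¹) *
        (F ξ * G η' * H (ξ + (a⁻¹ * δ) • η') * DD ξ η' (a⁻¹ * δ))) a ha).trans ?_)
    rw [integral_const_mul]
    field_simp
  rw [T3]
  simp only [h1]
  rw [integral_const_mul]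
  rfl

/-- full scaling -/
theorem T3_scale (F G H : E3 → ℝ) (δ a c c' c'' : ℝ) (ha : 0 < a) :
    T3 (fun ξ => c * F (a • ξ)) (fun ξ => c' * G (a • ξ)) (fun ξ => c'' * H (a • ξ)) δ =
      c * c' * c'' * (a ^ 10)⁻¹ * T3 F G H δ := by
  rw [T3_scale_out _ _ _ _ _ _ _ ha, T3_scale_in _ _ _ _ _ _ ha]
  have : a⁻¹ * (a * δ) = δ := by field_simp
  rw [this]
  field_simp

/-- Lipschitz at `0` -/
theorem T3_lip {F G : E3 → ℝ} (hF : Cce F) (hG : Cce G) : ∃ L : ℝ, 0 ≤ L ∧ ∀ δ : ℝ, 0 ≤ δ → δ ≤ 1 →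
    |T3 F G F δ - T3 F G F 0| ≤ L * δ := by
  have cF := CC.of_cce hF
  have cG := CC.of_cce hG
  obtain ⟨Λ, hΛ⟩ := (hF.smooth.of_le (by exact_mod_cast le_top : (1 : WithTop ℕ∞) ≤ (⊤ : ℕ∞))).lipschitzWith_of_hasCompactSupport hF.supp (by norm_num)
  obtain ⟨M, hM⟩ := hF.supp.exists_bound_of_continuous cF.cont
  obtain ⟨R1, hR1⟩ := (hF.supp.isCompact.isBounded).exists_norm_le
  obtain ⟨R2, hR2⟩ := (hG.supp.isCompact.isBounded).exists_norm_le
  set R : ℝ := max 1 (max R1 R2) with hR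
  have hR0 : 1 ≤ R := le_max_left _ _
  have hFR : ∀ ξ, F ξ ≠ 0 → ‖ξ‖ ≤ R := fun ξ h =>
    (hR1 ξ (subset_tsupport _ h)).trans ((le_max_left _ _).trans (le_max_right _ _))
  have hGR : ∀ ξ, G ξ ≠ 0 → ‖ξ‖ ≤ R := fun ξ h =>
    (hR2 ξ (subset_tsupport _ h)).trans ((le_max_right _ _).trans (le_max_right _ _))
  have hM0 : 0 ≤ M := (norm_nonneg _).trans (hM 0)
  set W : ℝ := 2 * R ^ 2 * (Λ * R * (4 * R ^ 2) + M * (2 * R ^ 2)) with hW
  have hΛ0 : (0 : ℝ) ≤ Λ := Λ.2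
  have hW0 : 0 ≤ W := by positivity
  have hI : Integrable (fun p : E3 × E3 => |F p.1| * |G p.2|) (volume : Measure (E3 × E3)) := by
    have h1 : Continuous (fun p : E3 × E3 => |F p.1| * |G p.2|) := by
      have := cF.cont
      have := cG.cont
      fun_prop
    refine h1.integrable_of_hasCompactSupport ?_
    apply HasCompactSupport.intro (hF.supp.isCompact.prod hG.supp.isCompact)
    rintro ⟨ξ, η⟩ h
    rw [Set.mem_prod, not_and_or] at h
    rcases h with h | h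
    · simp [image_eq_zero_of_notMem_tsupport h]
    · simp [image_eq_zero_of_notMem_tsupport h]
  refine ⟨W * ∫ p : E3 × E3, |F p.1| * |G p.2|, mul_nonneg hW0 (integral_nonneg fun _ => by positivity),
    fun δ h0 h1 => ?_⟩
  rw [T3_eq cF cG cF.cont, T3_eq cF cG cF.cont, ← integral_sub (KK_int cF cG cF.cont δ) (KK_int cF cG cF.cont 0),
    ← Real.norm_eq_abs]
  have hpt : ∀ p : E3 × E3, ‖KK F G F δ p - KK F G F 0 p‖ ≤ W * δ * (|F p.1| * |G p.2|) := by
    rintro ⟨ξ, η⟩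
    simp only [KK, zero_smul, add_zero]
    by_cases hf : F ξ = 0
    · simp [hf]
    by_cases hg : G η = 0
    · simp [hg]
    have hξ := hFR ξ hf
    have hη := hGR η hg
    have a0 := (abs_le_norm ξ 0).trans hξ
    have a1 := (abs_le_norm ξ 1).trans hξ
    have b0 := (abs_le_norm η 0).trans hη
    have b1 := (abs_le_norm η 1).trans hη
    have e1 : F ξ * G η * F (ξ + δ • η) * DD ξ η δ - F ξ * G η * F ξ * DD ξ η 0 =
        F ξ * G η * (ξ 0 * η 1 - ξ 1 * η 0) *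
          ((F (ξ + δ • η) - F ξ) * (η 0 * (ξ 0 + δ * η 0) + η 1 * (ξ 1 + δ * η 1)) +
            F ξ * (δ * (η 0 * η 0 + η 1 * η 1))) := by
      simp only [DD]; ring
    rw [e1, Real.norm_eq_abs, abs_mul, abs_mul, abs_mul]
    have hm : ∀ x y : ℝ, |x| ≤ R → |y| ≤ R → |x * y| ≤ R ^ 2 := by
      intro x y hx hy
      rw [abs_mul, sq]
      exact mul_le_mul hx hy (abs_nonneg _) (by linarith)
    have e2 : |ξ 0 * η 1 - ξ 1 * η 0| ≤ 2 * R ^ 2 := by
      refine (abs_sub _ _).trans ?_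
      linarith [hm _ _ a0 b1, hm _ _ a1 b0]
    have e3 : |F (ξ + δ • η) - F ξ| ≤ Λ * R * δ := by
      have := hΛ.dist_le_mul (ξ + δ • η) ξ
      rw [Real.dist_eq, dist_eq_norm, add_sub_cancel_left, norm_smul, Real.norm_of_nonneg h0] at this
      refine this.trans ?_
      have : δ * ‖η‖ ≤ δ * R := mul_le_mul_of_nonneg_left hη h0
      nlinarith
    have e4 : |η 0 * (ξ 0 + δ * η 0) + η 1 * (ξ 1 + δ * η 1)| ≤ 4 * R ^ 2 := by
      have : η 0 * (ξ 0 + δ * η 0) + η 1 * (ξ 1 + δ * η 1) =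
        (η 0 * ξ 0 + η 1 * ξ 1) + δ * (η 0 * η 0 + η 1 * η 1) := by ring
      rw [this]
      have h3 : |η 0 * η 0 + η 1 * η 1| ≤ 2 * R ^ 2 :=
        (abs_add_le _ _).trans (by linarith [hm _ _ b0 b0, hm _ _ b1 b1])
      have h4 : |δ * (η 0 * η 0 + η 1 * η 1)| ≤ 1 * (2 * R ^ 2) := by
        rw [abs_mul, abs_of_nonneg h0]
        exact mul_le_mul h1 h3 (abs_nonneg _) zero_le_one
      refine (abs_add_le _ _).trans ?_
      have h5 : |η 0 * ξ 0 + η 1 * ξ 1| ≤ 2 * R ^ 2 :=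
        (abs_add_le _ _).trans (by linarith [hm _ _ b0 a0, hm _ _ b1 a1])
      linarith
    have e5 : |F ξ * (δ * (η 0 * η 0 + η 1 * η 1))| ≤ M * (2 * R ^ 2) * δ := by
      have h3 : |η 0 * η 0 + η 1 * η 1| ≤ 2 * R ^ 2 :=
        (abs_add_le _ _).trans (by linarith [hm _ _ b0 b0, hm _ _ b1 b1])
      rw [abs_mul, abs_mul, abs_of_nonneg h0]
      have h4 : |F ξ| ≤ M := hM ξ
      calc |F ξ| * (δ * |η 0 * η 0 + η 1 * η 1|) ≤ M * (δ * (2 * R ^ 2)) := by gcongr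
        _ = _ := by ring
    have e6 : |(F (ξ + δ • η) - F ξ) * (η 0 * (ξ 0 + δ * η 0) + η 1 * (ξ 1 + δ * η 1)) +
            F ξ * (δ * (η 0 * η 0 + η 1 * η 1))| ≤ (Λ * R * (4 * R ^ 2) + M * (2 * R ^ 2)) * δ := by
      refine (abs_add_le _ _).trans ?_
      rw [abs_mul]
      have := mul_le_mul e3 e4 (abs_nonneg _) (by positivity)
      nlinarith
    calc |F ξ| * |G η| * |ξ 0 * η 1 - ξ 1 * η 0| *
        |(F (ξ + δ • η) - F ξ) * (η 0 * (ξ 0 + δ * η 0) + η 1 * (ξ 1 + δ * η 1)) +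
            F ξ * (δ * (η 0 * η 0 + η 1 * η 1))| ≤
        |F ξ| * |G η| * (2 * R ^ 2) * ((Λ * R * (4 * R ^ 2) + M * (2 * R ^ 2)) * δ) := by gcongr
      _ = W * δ * (|F ξ| * |G η|) := by rw [hW]; ring
  refine (norm_integral_le_of_norm_le (hI.const_mul (W * δ)) (Eventually.of_forall hpt)).trans
    (le_of_eq ?_)
  rw [integral_const_mul]
  ring

end

end Pool.Agent.Y784.NS
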