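import Mathlib
import Pool.Agent.Y784.NS.PB

set_option autoImplicit false

/-!
NS/Y5: the wave packet.  Part C: the constants.
-/

namespace Pool.Agent.Y784.NS

open Set Filter Topology MeasureTheory
open Pool.Agent.Y5

noncomputable section

theorem cint {F p : E3 → ℝ} (hF : CC F) (hp : Continuous p) : Integrable (fun ξ => F ξ * p ξ) := by
  refine (hF.cont.mul hp).integrable_of_hasCompactSupport ?_
  exact hF.cpt.mul_right

theorem c01 : Continuous (fun ξ : E3 => ξ 0 * ξ 1) := by fun_prop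
theorem cdd : Continuous (fun ξ : E3 => ξ 0 ^ 2 - ξ 1 ^ 2) := by fun_prop

/-- linearity for four functions -/
theorem int4 {X : Type*} [MeasurableSpace X] {μ : Measure X} {f1 f2 f3 f4 : X → ℝ}
    (h1 : Integrable f1 μ) (h2 : Integrable f2 μ)
    (h3 : Integrable f3 μ) (h4 : Integrable f4 μ) (a b c d : ℝ) :
    ∫ v, (a * f1 v + b * f2 v + c * f3 v + d * f4 v) ∂μ =
      a * (∫ v, f1 v ∂μ) + b * (∫ v, f2 v ∂μ) + c * (∫ v, f3 v ∂μ) + d * ∫ v, f4 v ∂μ := by
  have e1 : Integrable (fun v => a * f1 v) μ := h1.const_mul a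
  have e2 : Integrable (fun v => b * f2 v) μ := h2.const_mul b
  have e3 : Integrable (fun v => c * f3 v) μ := h3.const_mul c
  have e4 : Integrable (fun v => d * f4 v) μ := h4.const_mul d
  have e12 : Integrable (fun v => a * f1 v + b * f2 v) μ := e1.add e2
  have e123 : Integrable (fun v => a * f1 v + b * f2 v + c * f3 v) μ := e12.add e3
  rw [integral_add e123 e4, integral_add e12 e3, integral_add e1 e2]
  simp only [integral_const_mul]

theorem CC.sq {F : E3 → ℝ} (hF : CC F) : CC (fun ξ => F ξ ^ 2) := by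
  refine ⟨hF.cont.pow 2, ?_⟩
  simp only [_root_.sq]
  exact hF.cpt.mul_right

theorem beta_cc : CC beta := ⟨beta_cont, beta_cpt⟩

/-- reflection in the first coordinate -/
def refl0 : E3 ≃ₗᵢ[ℝ] E3 :=
  LinearIsometryEquiv.piLpCongrRight 2
    (fun i : Fin 3 => if i = 0 then LinearIsometryEquiv.neg ℝ else LinearIsometryEquiv.refl ℝ ℝ)

theorem refl0_0 (v : E3) : refl0 v 0 = -v 0 := by simp [refl0]
theorem refl0_1 (v : E3) : refl0 v 1 = v 1 := by simp [refl0]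

/-- exchange of the first two coordinates -/
def swap01 : E3 ≃ₗᵢ[ℝ] E3 := LinearIsometryEquiv.piLpCongrLeft 2 ℝ ℝ (Equiv.swap (0 : Fin 3) 1)

theorem swap01_0 (v : E3) : swap01 v 0 = v 1 := by
  simp [swap01, LinearIsometryEquiv.piLpCongrLeft_apply, Equiv.piCongrLeft'_apply]
theorem swap01_1 (v : E3) : swap01 v 1 = v 0 := by
  simp [swap01, LinearIsometryEquiv.piLpCongrLeft_apply, Equiv.piCongrLeft'_apply]

theorem int_iso (e : E3 ≃ₗᵢ[ℝ] E3) (f : E3 → ℝ) : ∫ v, f (e v) = ∫ v, f v :=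
  (e.measurePreserving).integral_comp e.toHomeomorph.measurableEmbedding f

theorem zero_of_neg {f : E3 → ℝ} (e : E3 ≃ₗᵢ[ℝ] E3) (h : ∀ v, f (e v) = -f v) : ∫ v, f v = 0 := by
  have h1 := int_iso e f
  simp only [h, integral_neg] at h1
  linarith

/-- radial functions -/
structure Rad (γ : E3 → ℝ) : Prop where
  cc : CC γ
  rad : ∀ v w : E3, ‖v‖ = ‖w‖ → γ v = γ w

theorem beta_rad : Rad beta := ⟨beta_cc, fun v w h => by simp [beta, h]⟩
theorem beta2_rad : Rad (fun v => beta v ^ 2) := ⟨beta_cc.sq, fun v w h => by simp [beta, h]⟩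

theorem mom0 {γ : E3 → ℝ} (h : Rad γ) : ∫ v, γ v * v 0 = 0 := by
  apply zero_of_neg (LinearIsometryEquiv.neg ℝ)
  intro v
  rw [h.rad _ v (by simp)]
  simp

theorem mom1 {γ : E3 → ℝ} (h : Rad γ) : ∫ v, γ v * v 1 = 0 := by
  apply zero_of_neg (LinearIsometryEquiv.neg ℝ)
  intro v
  rw [h.rad _ v (by simp)]
  simp

theorem mom01 {γ : E3 → ℝ} (h : Rad γ) : ∫ v, γ v * (v 0 * v 1) = 0 := by
  apply zero_of_neg refl0
  intro v
  rw [h.rad _ v (LinearIsometryEquiv.norm_map _ _), refl0_0, refl0_1]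
  ring

theorem momd {γ : E3 → ℝ} (h : Rad γ) : ∫ v, γ v * (v 0 ^ 2 - v 1 ^ 2) = 0 := by
  apply zero_of_neg swap01
  intro v
  rw [h.rad _ v (LinearIsometryEquiv.norm_map _ _), swap01_0, swap01_1]
  ring

theorem shift_int (γ f : E3 → ℝ) (c : E3) : ∫ ξ, γ (ξ - c) * f ξ = ∫ v, γ v * f (v + c) := by
  have := integral_sub_right_eq_self (μ := (volume : Measure E3)) (fun v => γ v * f (v + c)) c
  simpa using this

theorem smom01 {γ : E3 → ℝ} (h : Rad γ) (c : E3) :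
    ∫ ξ, γ (ξ - c) * (ξ 0 * ξ 1) = c 0 * c 1 * ∫ v, γ v := by
  rw [shift_int γ (fun ξ => ξ 0 * ξ 1) c]
  have i0 := cint h.cc (coord_cont 0)
  have i1 := cint h.cc (coord_cont 1)
  have i01 := cint h.cc c01
  have i : Integrable γ := h.cc.cont.integrable_of_hasCompactSupport h.cc.cpt
  have e : ∀ v : E3, γ v * ((v + c) 0 * (v + c) 1) =
      1 * (γ v * (v 0 * v 1)) + c 1 * (γ v * v 0) + c 0 * (γ v * v 1) + (c 0 * c 1) * γ v := by
    intro v
    simp only [PiLp.add_apply]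
    ring
  simp only [e]
  rw [int4 i01 i0 i1 i, mom0 h, mom1 h, mom01 h]
  ring

theorem smomd {γ : E3 → ℝ} (h : Rad γ) (c : E3) :
    ∫ ξ, γ (ξ - c) * (ξ 0 ^ 2 - ξ 1 ^ 2) = (c 0 ^ 2 - c 1 ^ 2) * ∫ v, γ v := by
  rw [shift_int γ (fun ξ => ξ 0 ^ 2 - ξ 1 ^ 2) c]
  have i0 := cint h.cc (coord_cont 0)
  have i1 := cint h.cc (coord_cont 1)
  have id := cint h.cc cdd
  have i : Integrable γ := h.cc.cont.integrable_of_hasCompactSupport h.cc.cpt
  have e : ∀ v : E3, γ v * ((v + c) 0 ^ 2 - (v + c) 1 ^ 2) =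
      1 * (γ v * (v 0 ^ 2 - v 1 ^ 2)) + (2 * c 0) * (γ v * v 0) + (-(2 * c 1)) * (γ v * v 1) +
        (c 0 ^ 2 - c 1 ^ 2) * γ v := by
    intro v
    simp only [PiLp.add_apply]
    ring
  simp only [e]
  rw [int4 id i0 i1 i, mom0 h, mom1 h, momd h]
  ring

theorem shift_cc {γ : E3 → ℝ} (h : CC γ) (c : E3) : CC (fun ξ => γ (ξ - c)) := by
  refine ⟨h.cont.comp (continuous_id.sub continuous_const), ?_⟩
  have := h.cpt.comp_homeomorph (Homeomorph.addRight (-c))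
  simpa [sub_eq_add_neg, Function.comp_def] using this

/-- integrals against a combination of four shifted radial functions -/
theorem four {γ : E3 → ℝ} (h : CC γ) (k : ℝ) {p : E3 → ℝ} (hp : Continuous p) :
    ∫ ξ, ((γ (ξ - P1) + γ (ξ + P1)) + k * (γ (ξ - P2) + γ (ξ + P2))) * p ξ =
      ((∫ ξ, γ (ξ - P1) * p ξ) + ∫ ξ, γ (ξ - -P1) * p ξ) +
        k * ((∫ ξ, γ (ξ - P2) * p ξ) + ∫ ξ, γ (ξ - -P2) * p ξ) := by
  have i1 := cint (shift_cc h P1) hp
  have i2 := cint (shift_cc h (-P1)) hp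
  have i3 := cint (shift_cc h P2) hp
  have i4 := cint (shift_cc h (-P2)) hp
  have h4 := int4 i1 i2 i3 i4 1 1 k k
  have h5 : ∫ ξ, ((γ (ξ - P1) + γ (ξ + P1)) + k * (γ (ξ - P2) + γ (ξ + P2))) * p ξ =
      ∫ ξ, (1 * (γ (ξ - P1) * p ξ) + 1 * (γ (ξ - -P1) * p ξ) + k * (γ (ξ - P2) * p ξ) +
        k * (γ (ξ - -P2) * p ξ)) := by
    refine integral_congr_ae (Eventually.of_forall fun ξ => ?_)
    simp only [sub_neg_eq_add]
    ring
  rw [h5, h4]
  ring

theorem fA_int01 : ∫ ξ, fA ξ * (ξ 0 * ξ 1) = 4 * ∫ v, beta v := by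
  have := four beta_cc 2 c01
  simp only [smom01 beta_rad] at this
  simp only [fA]
  rw [this]
  simp
  ring

theorem fA_intd : ∫ ξ, fA ξ * (ξ 0 ^ 2 - ξ 1 ^ 2) = 2 * ∫ v, beta v := by
  have := four beta_cc 2 cdd
  simp only [smomd beta_rad] at this
  simp only [fA]
  rw [this]
  simp
  ring

theorem fA2_int01 : ∫ ξ, fA ξ ^ 2 * (ξ 0 * ξ 1) = 8 * ∫ v, beta v ^ 2 := by
  have := four beta_cc.sq 4 c01
  simp only [smom01 beta2_rad] at this
  simp only [fA_sq]
  rw [this]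
  simp
  ring

theorem fA2_intd : ∫ ξ, fA ξ ^ 2 * (ξ 0 ^ 2 - ξ 1 ^ 2) = 2 * ∫ v, beta v ^ 2 := by
  have := four beta_cc.sq 4 cdd
  simp only [smomd beta2_rad] at this
  simp only [fA_sq]
  rw [this]
  simp
  ring

theorem fA_cc : CC fA := CC.of_cce fA_cce
theorem fH_cc : CC fH := CC.of_cce fH_cce

theorem T3_AAA : T3 fA fA fA 0 = -(8 * ((∫ v, beta v) * ∫ v, beta v ^ 2)) := by
  have h1 : ∀ ξ : E3, ∫ η : E3, fA ξ * fA η * fA (ξ + (0 : ℝ) • η) * DD ξ η 0 =
      (fA ξ ^ 2 * (ξ 0 ^ 2 - ξ 1 ^ 2)) * (4 * ∫ v, beta v) -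
        (fA ξ ^ 2 * (ξ 0 * ξ 1)) * (2 * ∫ v, beta v) := by
    intro ξ
    rw [← fA_int01, ← fA_intd, ← integral_const_mul, ← integral_const_mul,
      ← integral_sub ((cint fA_cc c01).const_mul _)
        ((cint fA_cc cdd).const_mul _)]
    refine integral_congr_ae (Eventually.of_forall fun η => ?_)
    simp only [DD, zero_smul, add_zero, zero_mul]
    ring
  rw [T3]
  simp only [h1]
  rw [integral_sub ((cint fA_cc.sq cdd).mul_const _)
    ((cint fA_cc.sq c01).mul_const _), integral_mul_const,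
    integral_mul_const, fA2_int01, fA2_intd]
  ring

theorem I1_pos : 0 < ∫ v, beta v := by
  apply beta_cont.integral_pos_of_hasCompactSupport_nonneg_nonzero beta_cpt beta_nonneg (x := 0)
  exact (beta_pos (by simp)).ne'

theorem I2_pos : 0 < ∫ v, beta v ^ 2 := by
  apply beta_cc.sq.cont.integral_pos_of_hasCompactSupport_nonneg_nonzero beta_cc.sq.cpt
    (fun v => by positivity) (x := 0)
  exact pow_ne_zero 2 (beta_pos (by simp)).ne'

/-- sign of the symmetrised kernel -/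
theorem sign_lem {ξ η : E3} (h1 : fA ξ ≠ 0) (h2 : fA η ≠ 0) (h3 : fH (ξ + η) ≠ 0) :
    0 < (ξ 0 * η 1 - ξ 1 * η 0) * ((η 0 ^ 2 + η 1 ^ 2) - (ξ 0 ^ 2 + ξ 1 ^ 2)) := by
  have a := fA_ne h1
  have b := fA_ne h2
  have c := fH_ne h3
  simp only [PiLp.add_apply, abs_lt] at a b c
  have key1 : ∀ x y z w : ℝ, 49 / 50 < x → x < 51 / 50 → -(1 / 50) < y → y < 1 / 50 →
      49 / 50 < z → z < 51 / 50 → 49 / 50 < w → w < 51 / 50 →
      0 < (x * w - y * z) * ((z ^ 2 + w ^ 2) - (x ^ 2 + y ^ 2)) := by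
    intro x y z w hx1 hx2 hy1 hy2 hz1 hz2 hw1 hw2
    apply mul_pos
    · nlinarith
    · nlinarith
  rcases a with ⟨⟨a1, a2⟩, a3, a4⟩ | ⟨⟨a1, a2⟩, a3, a4⟩ | ⟨⟨a1, a2⟩, a3, a4⟩ | ⟨⟨a1, a2⟩, a3, a4⟩ <;>
  rcases b with ⟨⟨b1, b2⟩, b3, b4⟩ | ⟨⟨b1, b2⟩, b3, b4⟩ | ⟨⟨b1, b2⟩, b3, b4⟩ | ⟨⟨b1, b2⟩, b3, b4⟩ <;>
  rcases c with ⟨⟨c1, c2⟩, c3, c4⟩ | ⟨⟨c1, c2⟩, c3, c4⟩ <;>
  first
  | (exfalso; linarith)
  | (have := key1 (ξ 0) (ξ 1) (η 0) (η 1) (by linarith) (by linarith) (by linarith) (by linarith)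
      (by linarith) (by linarith) (by linarith) (by linarith)
     linarith)
  | (have := key1 (η 0) (η 1) (ξ 0) (ξ 1) (by linarith) (by linarith) (by linarith) (by linarith)
      (by linarith) (by linarith) (by linarith) (by linarith)
     linarith)
  | (have := key1 (-ξ 0) (-ξ 1) (-η 0) (-η 1) (by linarith) (by linarith) (by linarith) (by linarith)
      (by linarith) (by linarith) (by linarith) (by linarith)
     nlinarith)
  | (have := key1 (-η 0) (-η 1) (-ξ 0) (-ξ 1) (by linarith) (by linarith) (by linarith) (by linarith)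
      (by linarith) (by linarith) (by linarith) (by linarith)
     nlinarith)

theorem T3_AAH : T3 fA fA fH 1 < 0 := by
  rw [T3_eq fA_cc fA_cc fH_cc.cont]
  have hI := KK_int fA_cc fA_cc fH_cc.cont 1
  have hsw : ∫ p : E3 × E3, KK fA fA fH 1 p.swap = ∫ p : E3 × E3, KK fA fA fH 1 p :=
    integral_prod_swap (μ := (volume : Measure E3)) (ν := (volume : Measure E3)) (KK fA fA fH 1)
  have hIs : Integrable (fun p : E3 × E3 => KK fA fA fH 1 p.swap) (volume : Measure (E3 × E3)) :=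
    Integrable.swap (μ := (volume : Measure E3)) (ν := (volume : Measure E3)) hI
  have e : ∀ p : E3 × E3, -(KK fA fA fH 1 p + KK fA fA fH 1 p.swap) =
      fA p.1 * fA p.2 * (-fH (p.1 + p.2)) * ((p.1 0 * p.2 1 - p.1 1 * p.2 0) *
        ((p.2 0 ^ 2 + p.2 1 ^ 2) - (p.1 0 ^ 2 + p.1 1 ^ 2))) := by
    rintro ⟨ξ, η⟩
    simp only [KK, DD, Prod.swap, one_smul, add_comm η ξ]
    ring
  have hpos : 0 < ∫ p : E3 × E3, -(KK fA fA fH 1 p + KK fA fA fH 1 p.swap) := by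
    apply Continuous.integral_pos_of_hasCompactSupport_nonneg_nonzero (x := (P1, P2))
    · have := KK_cont fA_cc.cont fA_cc.cont fH_cc.cont 1
      fun_prop
    · apply HasCompactSupport.intro (fA_cc.cpt.isCompact.prod fA_cc.cpt.isCompact)
      intro p h
      rw [e]
      rw [Set.mem_prod, not_and_or] at h
      rcases h with h | h
      · simp [image_eq_zero_of_notMem_tsupport h]
      · simp [image_eq_zero_of_notMem_tsupport h]
    · intro p
      simp only [Pi.zero_apply]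
      rw [e]
      by_cases h1 : fA p.1 = 0
      · simp [h1]
      by_cases h2 : fA p.2 = 0
      · simp [h2]
      by_cases h3 : fH (p.1 + p.2) = 0
      · simp [h3]
      have a := sign_lem h1 h2 h3
      have b := fA_nonneg p.1
      have c := fA_nonneg p.2
      have d : 0 ≤ -fH (p.1 + p.2) := by linarith [fH_nonpos (p.1 + p.2)]
      positivity
    · rw [e]
      have h3 : P1 + P2 = P3 := by
        ext i; fin_cases i <;> simp [P1, P2, P3] <;> norm_num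
      simp only [h3]
      have a := fA_P1
      have b := fA_P2
      have c := fH_P3
      have d : (P1 0 * P2 1 - P1 1 * P2 0) * ((P2 0 ^ 2 + P2 1 ^ 2) - (P1 0 ^ 2 + P1 1 ^ 2)) = 1 := by
        simp
      rw [d]
      have : 0 < -fH P3 := by linarith
      positivity
  have h2 : ∫ p : E3 × E3, -(KK fA fA fH 1 p + KK fA fA fH 1 p.swap) =
      -(2 * ∫ p : E3 × E3, KK fA fA fH 1 p) := by
    rw [integral_neg, integral_add hI hIs, hsw]
    ring
  rw [h2] at hpos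
  linarith

/-- the masses -/
def MA : ℝ := ∫ ξ, fA ξ * fA ξ * (ξ 0 ^ 2 + ξ 1 ^ 2)
def MH : ℝ := ∫ ξ, fH ξ * fH ξ * (ξ 0 ^ 2 + ξ 1 ^ 2)

theorem MA_pos : 0 < MA := by
  have h1 : Continuous (fun ξ : E3 => fA ξ * fA ξ * (ξ 0 ^ 2 + ξ 1 ^ 2)) := by
    have := fA_cc.cont
    fun_prop
  apply h1.integral_pos_of_hasCompactSupport_nonneg_nonzero (x := P1)
  · exact (fA_cc.cpt.mul_right (f' := fA)).mul_right
  · intro ξ
    have := fA_nonneg ξ
    simp only [Pi.zero_apply]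
    positivity
  · have := fA_P1
    simp only [P1_0, P1_1]
    positivity

theorem MH_nonneg : 0 ≤ MH := by
  apply integral_nonneg
  intro ξ
  simp only [Pi.zero_apply]
  nlinarith [mul_self_nonneg (fH ξ), sq_nonneg (ξ 0), sq_nonneg (ξ 1),
    mul_nonneg (mul_self_nonneg (fH ξ)) (add_nonneg (sq_nonneg (ξ 0)) (sq_nonneg (ξ 1)))]

end

end Pool.Agent.Y784.NS
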