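import Mathlib
import Pool.Agent.Y784.NS.PC

set_option autoImplicit false

/-!
NS/Y5: the wave packet.  Part D: the profile and its dilates.
-/

namespace Pool.Agent.Y784.NS

open Set Filter Topology MeasureTheory
open Pool.Agent.Y5

noncomputable section

/-- tail part of the profile -/
def tau (s ε : ℝ) (ξ : E3) : ℝ := ε * s ^ 5 * fH (s ^ 2 • ξ)

/-- the profile -/
def GG (s ε κ : ℝ) (ξ : E3) : ℝ := κ * (fA ξ + tau s ε ξ)

/-- the profile of the `n`-th packet -/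
def gl (s : ℝ) (G : E3 → ℝ) (n : ℕ) (ξ : E3) : ℝ := (s ^ (5 * n))⁻¹ * G ((s ^ (2 * n))⁻¹ • ξ)

theorem cce_smul {G : E3 → ℝ} (h : Cce G) (c a : ℝ) (ha : a ≠ 0) : Cce (fun ξ => c * G (a • ξ)) := by
  refine ⟨contDiff_const.mul (h.smooth.comp (contDiff_const_smul a)), ?_, ?_⟩
  · exact (h.supp.comp_smul ha).mul_left
  · intro ξ
    simp only [smul_neg, h.even]

theorem cce_add {F G : E3 → ℝ} (hF : Cce F) (hG : Cce G) : Cce (fun ξ => F ξ + G ξ) :=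
  ⟨hF.smooth.add hG.smooth, hF.supp.add hG.supp, fun ξ => by simp only [hF.even, hG.even]⟩

theorem tau_cce (s ε : ℝ) (hs : 0 < s) : Cce (tau s ε) :=
  cce_smul fH_cce (ε * s ^ 5) (s ^ 2) (by positivity)

theorem GG_cce (s ε κ : ℝ) (hs : 0 < s) : Cce (GG s ε κ) := by
  have := cce_smul (cce_add fA_cce (tau_cce s ε hs)) κ 1 one_ne_zero
  simp only [one_smul] at this
  exact this

theorem gl_cce (s : ℝ) {G : E3 → ℝ} (hG : Cce G) (n : ℕ) (hs : 0 < s) : Cce (gl s G n) :=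
  cce_smul hG _ _ (by positivity)

theorem gl_zero (s : ℝ) (G : E3 → ℝ) : gl s G 0 = G := by
  ext ξ; simp [gl]

/-- the packets -/
theorem packet_flow (s : ℝ) (hs : 0 < s) (G : E3 → ℝ) (n : ℕ) :
    packet s (flow G) n = flow (gl s G n) := by
  ext1 y
  rw [packet, flow, flow]
  have ha : (0 : ℝ) < s ^ (2 * n) := by positivity
  set f : E3 → E3 := fun ξ => (2 * Real.pi * Real.sin (2 * Real.pi * inner ℝ ξ y) * gl s G n ξ) •
    (WithLp.toLp 2 ![-ξ 1, ξ 0, 0] : E3) with hf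
  have h1 : ∀ ξ : E3, (2 * Real.pi * Real.sin (2 * Real.pi * inner ℝ ξ (s ^ (2 * n) • y)) * G ξ) •
      (WithLp.toLp 2 ![-ξ 1, ξ 0, 0] : E3) = (s ^ (5 * n) * (s ^ (2 * n))⁻¹) • f (s ^ (2 * n) • ξ) := by
    intro ξ
    simp only [hf, gl, smul_smul, inv_mul_cancel₀ ha.ne', one_smul, inner_smul_left, inner_smul_right]
    have e1 : (WithLp.toLp 2 ![-(s ^ (2 * n) • ξ) 1, (s ^ (2 * n) • ξ) 0, 0] : E3) =
        s ^ (2 * n) • (WithLp.toLp 2 ![-ξ 1, ξ 0, 0] : E3) := by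
      ext i; fin_cases i <;> simp
    rw [e1, smul_smul]
    congr 1
    have : (0 : ℝ) < s ^ (5 * n) := by positivity
    simp only [conj_trivial]
    field_simp
  simp only [h1]
  rw [integral_smul, Measure.integral_comp_smul, finrank_euclideanSpace_fin,
    abs_of_pos (by positivity), smul_smul, smul_smul]
  have e2 : s ^ (3 * n) * (s ^ (5 * n) * (s ^ (2 * n))⁻¹) * ((s ^ (2 * n)) ^ 3)⁻¹ = 1 := by
    field_simp
    ring
  rw [e2, one_smul]

/-- first coordinates in the support of the profile -/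
theorem tau_ne {s ε : ℝ} {ξ : E3} (h : tau s ε ξ ≠ 0) :
    |s ^ 2 * ξ 0 - 2| < 1 / 50 ∨ |s ^ 2 * ξ 0 + 2| < 1 / 50 := by
  have := fH_ne (right_ne_zero_of_mul h)
  simp only [PiLp.smul_apply, smul_eq_mul] at this
  tauto

theorem fA_ne0 {ξ : E3} (h : fA ξ ≠ 0) : |ξ 0 - 1| < 1 / 50 ∨ |ξ 0 + 1| < 1 / 50 := by
  have := fA_ne h
  tauto

theorem fA_ne_abs {ξ : E3} (h : fA ξ ≠ 0) : 49 / 50 < |ξ 0| ∧ |ξ 0| < 51 / 50 := by
  rcases fA_ne0 h with h | h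
  · have := abs_lt.mp h
    rw [abs_of_pos (by linarith)]
    constructor <;> linarith
  · have := abs_lt.mp h
    rw [abs_of_neg (by linarith)]
    constructor <;> linarith

theorem tau_ne_abs {s ε : ℝ} (hs : 10 ≤ s) {ξ : E3} (h : tau s ε ξ ≠ 0) : |ξ 0| < 1 / 40 := by
  have hq : (100 : ℝ) ≤ s ^ 2 := by nlinarith
  have h1 : |s ^ 2 * ξ 0| < 101 / 50 := by
    rcases tau_ne h with h | h
    · have := abs_lt.mp h
      rw [abs_lt]
      constructor <;> linarith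
    · have := abs_lt.mp h
      rw [abs_lt]
      constructor <;> linarith
  rw [abs_mul, abs_of_pos (by positivity)] at h1
  nlinarith [abs_nonneg (ξ 0)]

theorem fH_ne_abs {ξ : E3} (h : fH ξ ≠ 0) : 99 / 50 < |ξ 0| := by
  rcases fH_ne h with ⟨h, -⟩ | ⟨h, -⟩
  · have := abs_lt.mp h
    rw [abs_of_pos (by linarith)]
    linarith
  · have := abs_lt.mp h
    rw [abs_of_neg (by linarith)]
    linarith

theorem fA_tau {s ε : ℝ} (hs : 10 ≤ s) (ξ : E3) : fA ξ * tau s ε ξ = 0 := by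
  by_contra h
  have a := fA_ne_abs (left_ne_zero_of_mul h)
  have b := tau_ne_abs hs (right_ne_zero_of_mul h)
  linarith [a.1]

/-- `x` is near the first coordinate of a point of the `l`-th shell -/
def Near (q x : ℝ) (l : ℤ) : Prop := ∃ a c : ℤ,
  (((c = 1 ∨ c = -1) ∧ l = a) ∨ ((c = 2 ∨ c = -2) ∧ l = a + 1)) ∧ |x - q ^ a * c| < q ^ a / 50

theorem gl_near {s ε κ : ℝ} (hs : 10 ≤ s) {n : ℕ} {ξ : E3} (h : gl s (GG s ε κ) n ξ ≠ 0) :
    Near (s ^ 2) (ξ 0) n := by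
  have hs0 : (0 : ℝ) < s := by linarith
  have h1 : fA ((s ^ (2 * n))⁻¹ • ξ) + tau s ε ((s ^ (2 * n))⁻¹ • ξ) ≠ 0 :=
    right_ne_zero_of_mul (right_ne_zero_of_mul h)
  have hq : ((s ^ 2 : ℝ)) ^ (n : ℤ) = s ^ (2 * n) := by
    rw [zpow_natCast, ← pow_mul]
  have hpos : (0 : ℝ) < s ^ (2 * n) := by positivity
  have key : ∀ t : ℝ, |(s ^ (2 * n))⁻¹ * ξ 0 - t| < 1 / 50 → |ξ 0 - s ^ (2 * n) * t| < s ^ (2 * n) / 50 := by
    intro t ht
    have e : ξ 0 - s ^ (2 * n) * t = s ^ (2 * n) * ((s ^ (2 * n))⁻¹ * ξ 0 - t) := by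
      field_simp
    rw [e, abs_mul, abs_of_pos hpos, div_eq_mul_one_div]
    exact mul_lt_mul_of_pos_left ht hpos
  by_cases hA : fA ((s ^ (2 * n))⁻¹ • ξ) = 0
  · have hT : tau s ε ((s ^ (2 * n))⁻¹ • ξ) ≠ 0 := by
      intro h0; exact h1 (by rw [hA, h0, add_zero])
    have h2 := tau_ne hT
    simp only [PiLp.smul_apply, smul_eq_mul] at h2
    have hq2 : ((s ^ 2 : ℝ)) ^ ((n : ℤ) - 1) = s ^ (2 * n) / s ^ 2 := by
      rw [zpow_sub₀ (by positivity), hq, zpow_one]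
    have key2 : ∀ t : ℝ, |s ^ 2 * ((s ^ (2 * n))⁻¹ * ξ 0) - t| < 1 / 50 →
        |ξ 0 - s ^ (2 * n) / s ^ 2 * t| < s ^ (2 * n) / s ^ 2 / 50 := by
      intro t ht
      have e : ξ 0 - s ^ (2 * n) / s ^ 2 * t =
          s ^ (2 * n) / s ^ 2 * (s ^ 2 * ((s ^ (2 * n))⁻¹ * ξ 0) - t) := by
        field_simp
      have hp2 : (0 : ℝ) < s ^ (2 * n) / s ^ 2 := by positivity
      rw [e, abs_mul, abs_of_pos hp2, div_eq_mul_one_div (s ^ (2 * n) / s ^ 2) 50]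
      exact mul_lt_mul_of_pos_left ht hp2
    rcases h2 with h2 | h2
    · refine ⟨n - 1, 2, Or.inr ⟨Or.inl rfl, by ring⟩, ?_⟩
      rw [hq2]
      simpa using key2 2 h2
    · refine ⟨n - 1, -2, Or.inr ⟨Or.inr rfl, by ring⟩, ?_⟩
      rw [hq2]
      simpa using key2 (-2) (by simpa using h2)
  · have h2 := fA_ne0 hA
    simp only [PiLp.smul_apply, smul_eq_mul] at h2
    rcases h2 with h2 | h2
    · refine ⟨n, 1, Or.inl ⟨Or.inl rfl, rfl⟩, ?_⟩
      rw [hq]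
      simpa using key 1 h2
    · refine ⟨n, -1, Or.inl ⟨Or.inr rfl, rfl⟩, ?_⟩
      rw [hq]
      simpa using key (-1) (by simpa using h2)

/-- two scales -/
theorem near_top {q x : ℝ} {a c k : ℤ} (hq : 100 ≤ q) (hc : |(c : ℝ)| ≤ 2) (hak : a ≤ k)
    (h : |x - q ^ a * c| < q ^ a / 50) :
    |x - q ^ k * ((if a = k then c else 0 : ℤ) : ℝ)| < q ^ k / 10 := by
  have hq0 : (0 : ℝ) < q := by linarith
  have hk : (0 : ℝ) < q ^ k := zpow_pos hq0 k
  split_ifs with e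
  · rw [e] at h
    refine h.trans ?_
    linarith
  · have h2 : a ≤ k - 1 := by omega
    have h3 : q ^ a ≤ q ^ (k - 1) := zpow_le_zpow_right₀ (by linarith) h2
    have h4 : q ^ (k - 1) = q ^ k / q := by rw [zpow_sub₀ hq0.ne', zpow_one]
    have h5 : q ^ k / q ≤ q ^ k / 100 := by gcongr
    have ha : (0 : ℝ) < q ^ a := zpow_pos hq0 a
    have h6 : |x| < q ^ a / 50 + 2 * q ^ a := by
      have h7 : |x| ≤ |x - q ^ a * c| + |q ^ a * c| := by
        have := abs_add_le (x - q ^ a * c) (q ^ a * c)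
        simpa using this
      rw [abs_mul, abs_of_pos ha] at h7
      nlinarith
    simp only [Int.cast_zero, mul_zero, sub_zero]
    linarith

/-- the pattern of the levels -/
theorem pattern {q x y z : ℝ} (hq : 100 ≤ q) (hxyz : x + y = z) {l1 l2 l3 : ℤ}
    (h1 : Near q x l1) (h2 : Near q y l2) (h3 : Near q z l3) :
    (l1 = l2 ∧ l3 ≤ l1 + 1) ∨ (l1 = l3 ∧ l2 ≤ l1 + 1) ∨ (l2 = l3 ∧ l1 ≤ l2 + 1) := by
  obtain ⟨a1, c1, e1, f1⟩ := h1
  obtain ⟨a2, c2, e2, f2⟩ := h2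
  obtain ⟨a3, c3, e3, f3⟩ := h3
  have hb : ∀ c l a : ℤ, (((c = 1 ∨ c = -1) ∧ l = a) ∨ ((c = 2 ∨ c = -2) ∧ l = a + 1)) → |(c : ℝ)| ≤ 2 := by
    intro c l a h
    rcases h with ⟨h | h, -⟩ | ⟨h | h, -⟩ <;> subst h <;> norm_num
  obtain ⟨k, hk1, hk2, hk3, hk⟩ : ∃ k : ℤ, a1 ≤ k ∧ a2 ≤ k ∧ a3 ≤ k ∧ (a1 = k ∨ a2 = k ∨ a3 = k) := by
    refine ⟨max a1 (max a2 a3), by omega, by omega, by omega, by omega⟩
  have g1 := near_top hq (hb _ _ _ e1) hk1 f1
  have g2 := near_top hq (hb _ _ _ e2) hk2 f2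
  have g3 := near_top hq (hb _ _ _ e3) hk3 f3
  have hkp : (0 : ℝ) < q ^ k := zpow_pos (by linarith) k
  have hsum : (if a1 = k then c1 else 0) + (if a2 = k then c2 else 0) - (if a3 = k then c3 else 0) = (0 : ℤ) := by
    set u1 : ℤ := if a1 = k then c1 else 0
    set u2 : ℤ := if a2 = k then c2 else 0
    set u3 : ℤ := if a3 = k then c3 else 0
    have h4 : |q ^ k * ((u1 + u2 - u3 : ℤ) : ℝ)| < q ^ k := by
      rw [abs_lt] at g1 g2 g3 ⊢
      push_cast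
      constructor <;> nlinarith
    rw [abs_mul, abs_of_pos hkp] at h4
    have h5 : |((u1 + u2 - u3 : ℤ) : ℝ)| < 1 := by
      by_contra hcon
      nlinarith [not_lt.mp hcon]
    rw [← Int.cast_abs] at h5
    have h6 : |u1 + u2 - u3| < 1 := by exact_mod_cast h5
    exact Int.abs_lt_one_iff.mp h6
  clear g1 g2 g3 f1 f2 f3 hkp hb
  by_cases b1 : a1 = k <;> by_cases b2 : a2 = k <;> by_cases b3 : a3 = k <;>
    simp only [b1, b2, b3, if_true, if_false] at hsum <;> omega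

/-- vanishing of the trilinear form -/
theorem T_zero {s ε κ : ℝ} (hs : 10 ≤ s) (i j n : ℕ)
    (h : ¬ ((i = j ∧ n ≤ i + 1) ∨ (i = n ∧ j ≤ i + 1) ∨ (j = n ∧ i ≤ j + 1))) :
    T3 (gl s (GG s ε κ) i) (gl s (GG s ε κ) j) (gl s (GG s ε κ) n) 1 = 0 := by
  rw [T3]
  have h0 : ∀ ξ η : E3, gl s (GG s ε κ) i ξ * gl s (GG s ε κ) j η *
      gl s (GG s ε κ) n (ξ + (1 : ℝ) • η) * DD ξ η 1 = 0 := by
    intro ξ η
    by_contra hne
    apply h
    have n1 := gl_near hs (left_ne_zero_of_mul (left_ne_zero_of_mul (left_ne_zero_of_mul hne)))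
    have n2 := gl_near hs (right_ne_zero_of_mul (left_ne_zero_of_mul (left_ne_zero_of_mul hne)))
    have n3 := gl_near hs (right_ne_zero_of_mul (left_ne_zero_of_mul hne))
    have := pattern (by nlinarith : (100 : ℝ) ≤ s ^ 2) (x := ξ 0) (y := η 0)
      (by simp) n1 n2 n3
    omega
  simp only [h0, integral_zero]

/-- products of different levels vanish -/
theorem gl_mul_zero {s ε κ : ℝ} (hs : 10 ≤ s) {m n : ℕ} (h : m ≠ n) (ξ : E3) :
    gl s (GG s ε κ) m ξ * gl s (GG s ε κ) n ξ = 0 := by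
  by_contra hne
  have n1 := gl_near hs (left_ne_zero_of_mul hne)
  have n2 := gl_near hs (right_ne_zero_of_mul hne)
  obtain ⟨a1, c1, e1, f1⟩ := n1
  obtain ⟨a2, c2, e2, f2⟩ := n2
  have hb : ∀ c l a : ℤ, (((c = 1 ∨ c = -1) ∧ l = a) ∨ ((c = 2 ∨ c = -2) ∧ l = a + 1)) → |(c : ℝ)| ≤ 2 := by
    intro c l a h
    rcases h with ⟨h | h, -⟩ | ⟨h | h, -⟩ <;> subst h <;> norm_num
  have hq : (100 : ℝ) ≤ s ^ 2 := by nlinarith
  obtain ⟨k, hk1, hk2, hk⟩ : ∃ k : ℤ, a1 ≤ k ∧ a2 ≤ k ∧ (a1 = k ∨ a2 = k) := by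
    refine ⟨max a1 a2, by omega, by omega, by omega⟩
  have g1 := near_top hq (hb _ _ _ e1) hk1 f1
  have g2 := near_top hq (hb _ _ _ e2) hk2 f2
  have hkp : (0 : ℝ) < (s ^ 2) ^ k := zpow_pos (by linarith) k
  have hsum : (if a1 = k then c1 else 0) - (if a2 = k then c2 else 0) = (0 : ℤ) := by
    set u1 : ℤ := if a1 = k then c1 else 0
    set u2 : ℤ := if a2 = k then c2 else 0
    have h4 : |(s ^ 2) ^ k * ((u1 - u2 : ℤ) : ℝ)| < (s ^ 2) ^ k := by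
      rw [abs_lt] at g1 g2 ⊢
      push_cast
      constructor <;> nlinarith
    rw [abs_mul, abs_of_pos hkp] at h4
    have h5 : |((u1 - u2 : ℤ) : ℝ)| < 1 := by
      by_contra hcon
      nlinarith [not_lt.mp hcon]
    rw [← Int.cast_abs] at h5
    have h6 : |u1 - u2| < 1 := by exact_mod_cast h5
    exact Int.abs_lt_one_iff.mp h6
  clear g1 g2 f1 f2 hkp hb
  by_cases b1 : a1 = k <;> by_cases b2 : a2 = k <;>
    simp only [b1, b2, if_true, if_false] at hsum <;> omega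

/-- scaling of the trilinear form -/
theorem T_shift {s : ℝ} (hs : 0 < s) (G : E3 → ℝ) (i j n k : ℕ) :
    T3 (gl s G (i + k)) (gl s G (j + k)) (gl s G (n + k)) 1 =
      s ^ (5 * k) * T3 (gl s G i) (gl s G j) (gl s G n) 1 := by
  have h1 : ∀ m : ℕ, gl s G (m + k) = fun ξ => (s ^ (5 * k))⁻¹ * gl s G m ((s ^ (2 * k))⁻¹ • ξ) := by
    intro m
    ext ξ
    rw [gl, gl, smul_smul, ← mul_assoc]
    congr 1
    · rw [← mul_inv, ← pow_add]; congr 2; ring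
    · congr 2
      rw [← mul_inv, ← pow_add]; congr 2; ring
  rw [h1, h1, h1, T3_scale _ _ _ _ _ _ _ _ (by positivity)]
  congr 1
  have h5 : (0 : ℝ) < s ^ k := by positivity
  have e5 : s ^ (5 * k) = (s ^ k) ^ 5 := by rw [← pow_mul, mul_comm]
  have e2 : s ^ (2 * k) = (s ^ k) ^ 2 := by rw [← pow_mul, mul_comm]
  rw [e5, e2]
  field_simp

/-- the interaction with lower levels -/
theorem T_low {s : ℝ} (hs : 0 < s) (G : E3 → ℝ) (j : ℕ) :
    T3 (gl s G j) (gl s G 0) (gl s G j) 1 = T3 G G G ((s ^ (2 * j))⁻¹) := by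
  have h2 := T3_scale_out G G G 1 ((s ^ (2 * j))⁻¹) ((s ^ (5 * j))⁻¹) ((s ^ (5 * j))⁻¹) (by positivity)
  rw [gl_zero, show gl s G j = fun ξ => (s ^ (5 * j))⁻¹ * G ((s ^ (2 * j))⁻¹ • ξ) from rfl, h2, mul_one]
  have h5 : (0 : ℝ) < s ^ j := by positivity
  have e5 : s ^ (5 * j) = (s ^ j) ^ 5 := by rw [← pow_mul, mul_comm]
  have e2 : s ^ (2 * j) = (s ^ j) ^ 2 := by rw [← pow_mul, mul_comm]
  rw [e5, e2]
  field_simp

end

end Pool.Agent.Y784.NS
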