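import Mathlib
import Pool.Agent.Y784.NS.PD

set_option autoImplicit false

/-!
NS/Y5: the wave packet.  `S_FREP → S_PACK`.
-/

namespace Pool.Agent.Y784.NS

open Set Filter Topology MeasureTheory
open Pool.Agent.Y5
open scoped SchwartzMap

noncomputable section

/-- mass of the tail -/
theorem mass_tau (s ε : ℝ) (hs : 0 < s) :
    ∫ ξ, tau s ε ξ * tau s ε ξ * (ξ 0 ^ 2 + ξ 1 ^ 2) = ε ^ 2 * MH := by
  have h1 : ∀ ξ : E3, tau s ε ξ * tau s ε ξ * (ξ 0 ^ 2 + ξ 1 ^ 2) =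
      (fun ζ : E3 => (ε ^ 2 * s ^ 6) * (fH ζ * fH ζ * (ζ 0 ^ 2 + ζ 1 ^ 2))) (s ^ 2 • ξ) := by
    intro ξ
    simp only [tau, PiLp.smul_apply, smul_eq_mul]
    ring
  have h2 := scl (fun ζ : E3 => (ε ^ 2 * s ^ 6) * (fH ζ * fH ζ * (ζ 0 ^ 2 + ζ 1 ^ 2))) (s ^ 2) (by positivity)
  simp only [h1]
  refine h2.trans ?_
  rw [integral_const_mul, MH]
  field_simp

/-- mass of the profile -/
theorem mass_GG {s ε κ : ℝ} (hs : 10 ≤ s) :
    ∫ ξ, GG s ε κ ξ * GG s ε κ ξ * (ξ 0 ^ 2 + ξ 1 ^ 2) = κ ^ 2 * (MA + ε ^ 2 * MH) := by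
  have hs0 : (0 : ℝ) < s := by linarith
  have h1 : ∀ ξ : E3, GG s ε κ ξ * GG s ε κ ξ * (ξ 0 ^ 2 + ξ 1 ^ 2) =
      κ ^ 2 * (fA ξ * fA ξ * (ξ 0 ^ 2 + ξ 1 ^ 2) + tau s ε ξ * tau s ε ξ * (ξ 0 ^ 2 + ξ 1 ^ 2)) := by
    intro ξ
    have := fA_tau (s := s) (ε := ε) hs ξ
    simp only [GG]
    linear_combination 2 * κ ^ 2 * (ξ 0 ^ 2 + ξ 1 ^ 2) * this
  have cp : Continuous (fun ξ : E3 => ξ 0 ^ 2 + ξ 1 ^ 2) := by fun_prop
  have c1 : CC (fun ξ => fA ξ * fA ξ) := ⟨fA_cc.cont.mul fA_cc.cont, fA_cc.cpt.mul_right⟩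
  have ct := CC.of_cce (tau_cce s ε hs0)
  have c2 : CC (fun ξ => tau s ε ξ * tau s ε ξ) := ⟨ct.cont.mul ct.cont, ct.cpt.mul_right⟩
  simp only [h1]
  rw [integral_const_mul, integral_add (cint c1 cp) (cint c2 cp), mass_tau s ε hs0]
  rfl

/-- products at the same level -/
theorem gl_mass {s : ℝ} (hs : 0 < s) (G : E3 → ℝ) (n : ℕ) :
    ∫ ξ, gl s G n ξ * gl s G n ξ * (ξ 0 ^ 2 + ξ 1 ^ 2) = ∫ ξ, G ξ * G ξ * (ξ 0 ^ 2 + ξ 1 ^ 2) := by
  have h1 : ∀ ξ : E3, gl s G n ξ * gl s G n ξ * (ξ 0 ^ 2 + ξ 1 ^ 2) =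
      (fun ζ : E3 => ((s ^ (2 * n)) ^ 3)⁻¹ * (G ζ * G ζ * (ζ 0 ^ 2 + ζ 1 ^ 2))) ((s ^ (2 * n))⁻¹ • ξ) := by
    intro ξ
    simp only [gl, PiLp.smul_apply, smul_eq_mul]
    have h5 : (0 : ℝ) < s ^ n := by positivity
    have e5 : s ^ (5 * n) = (s ^ n) ^ 5 := by rw [← pow_mul, mul_comm]
    have e2 : s ^ (2 * n) = (s ^ n) ^ 2 := by rw [← pow_mul, mul_comm]
    rw [e5, e2]
    field_simp
  have h2 := scl (fun ζ : E3 => ((s ^ (2 * n)) ^ 3)⁻¹ * (G ζ * G ζ * (ζ 0 ^ 2 + ζ 1 ^ 2)))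
    ((s ^ (2 * n))⁻¹) (by positivity)
  simp only [h1]
  refine h2.trans ?_
  rw [integral_const_mul]
  have : (0 : ℝ) < s ^ (2 * n) := by positivity
  field_simp

theorem gl_grad {s : ℝ} (hs : 0 < s) (G : E3 → ℝ) (n : ℕ) :
    ∫ ξ : E3, gl s G n ξ * gl s G n ξ * (ξ 0 ^ 2 + ξ 1 ^ 2) * ‖ξ‖ ^ 2 =
      s ^ (4 * n) * ∫ ξ : E3, G ξ * G ξ * (ξ 0 ^ 2 + ξ 1 ^ 2) * ‖ξ‖ ^ 2 := by
  have h1 : ∀ ξ : E3, gl s G n ξ * gl s G n ξ * (ξ 0 ^ 2 + ξ 1 ^ 2) * ‖ξ‖ ^ 2 =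
      (fun ζ : E3 => (s ^ (2 * n))⁻¹ * (G ζ * G ζ * (ζ 0 ^ 2 + ζ 1 ^ 2) * ‖ζ‖ ^ 2)) ((s ^ (2 * n))⁻¹ • ξ) := by
    intro ξ
    simp only [gl, PiLp.smul_apply, smul_eq_mul, norm_smul]
    rw [Real.norm_of_nonneg (by positivity)]
    have h5 : (0 : ℝ) < s ^ n := by positivity
    have e5 : s ^ (5 * n) = (s ^ n) ^ 5 := by rw [← pow_mul, mul_comm]
    have e2 : s ^ (2 * n) = (s ^ n) ^ 2 := by rw [← pow_mul, mul_comm]
    rw [e5, e2]
    field_simp
  have h2 := scl (fun ζ : E3 => (s ^ (2 * n))⁻¹ * (G ζ * G ζ * (ζ 0 ^ 2 + ζ 1 ^ 2) * ‖ζ‖ ^ 2))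
    ((s ^ (2 * n))⁻¹) (by positivity)
  simp only [h1]
  refine h2.trans ?_
  rw [integral_const_mul]
  have h5 : (0 : ℝ) < s ^ n := by positivity
  have e5 : s ^ (4 * n) = (s ^ n) ^ 4 := by rw [← pow_mul, mul_comm]
  have e2 : s ^ (2 * n) = (s ^ n) ^ 2 := by rw [← pow_mul, mul_comm]
  rw [e5, e2]
  field_simp

/-- the interaction `(0,0,1)` -/
theorem T_C {s ε κ : ℝ} (hs : 10 ≤ s) :
    T3 (gl s (GG s ε κ) 0) (gl s (GG s ε κ) 0) (gl s (GG s ε κ) 1) 1 =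
      κ ^ 3 * ε * T3 fA fA fH 1 := by
  have hs0 : (0 : ℝ) < s := by linarith
  rw [gl_zero, T3, T3, ← integral_const_mul]
  refine integral_congr_ae (Eventually.of_forall fun ξ => ?_)
  simp only []
  rw [← integral_const_mul]
  refine integral_congr_ae (Eventually.of_forall fun η => ?_)
  simp only [one_smul]
  have e1 : gl s (GG s ε κ) 1 (ξ + η) = κ * ((s ^ 5)⁻¹ * fA ((s ^ 2)⁻¹ • (ξ + η)) + ε * fH (ξ + η)) := by
    simp only [gl, GG, tau, mul_one]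
    rw [smul_smul, mul_inv_cancel₀ (by positivity), one_smul]
    field_simp
  have e2 : (fA ξ + tau s ε ξ) * (fA η + tau s ε η) * fA ((s ^ 2)⁻¹ • (ξ + η)) = 0 := by
    by_contra hne
    have hx : |ξ 0| < 51 / 50 := by
      by_cases h : fA ξ = 0
      · have h' : tau s ε ξ ≠ 0 := by
          intro h0
          exact left_ne_zero_of_mul (left_ne_zero_of_mul hne) (by rw [h, h0, add_zero])
        linarith [tau_ne_abs hs h']
      · exact (fA_ne_abs h).2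
    have hy : |η 0| < 51 / 50 := by
      by_cases h : fA η = 0
      · have h' : tau s ε η ≠ 0 := by
          intro h0
          exact right_ne_zero_of_mul (left_ne_zero_of_mul hne) (by rw [h, h0, add_zero])
        linarith [tau_ne_abs hs h']
      · exact (fA_ne_abs h).2
    have hz := (fA_ne_abs (right_ne_zero_of_mul hne)).1
    simp only [PiLp.smul_apply, PiLp.add_apply, smul_eq_mul] at hz
    rw [abs_mul, abs_of_pos (by positivity), inv_mul_eq_div, lt_div_iff₀ (by positivity)] at hz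
    have := abs_add_le (ξ 0) (η 0)
    nlinarith
  have e3 : tau s ε ξ * (fA η + tau s ε η) * fH (ξ + η) = 0 := by
    by_contra hne
    have hx := tau_ne_abs hs (left_ne_zero_of_mul (left_ne_zero_of_mul hne))
    have hy : |η 0| < 51 / 50 := by
      by_cases h : fA η = 0
      · have h' : tau s ε η ≠ 0 := by
          intro h0
          exact right_ne_zero_of_mul (left_ne_zero_of_mul hne) (by rw [h, h0, add_zero])
        linarith [tau_ne_abs hs h']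
      · exact (fA_ne_abs h).2
    have hz := fH_ne_abs (right_ne_zero_of_mul hne)
    simp only [PiLp.add_apply] at hz
    have := abs_add_le (ξ 0) (η 0)
    linarith
  have e4 : fA ξ * tau s ε η * fH (ξ + η) = 0 := by
    by_contra hne
    have hx := (fA_ne_abs (left_ne_zero_of_mul (left_ne_zero_of_mul hne))).2
    have hy := tau_ne_abs hs (right_ne_zero_of_mul (left_ne_zero_of_mul hne))
    have hz := fH_ne_abs (right_ne_zero_of_mul hne)
    simp only [PiLp.add_apply] at hz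
    have := abs_add_le (ξ 0) (η 0)
    linarith
  rw [e1]
  simp only [GG]
  linear_combination (κ ^ 3 * (s ^ 5)⁻¹ * DD ξ η 1) * e2 + (κ ^ 3 * ε * DD ξ η 1) * e3 +
    (κ ^ 3 * ε * DD ξ η 1) * e4

/-- the sum of the four fixed functions -/
def Sf (s ε δ : ℝ) : ℝ := T3 fA fA fA δ + ε * (s ^ 5)⁻¹ * T3 fA fH fA ((s ^ 2)⁻¹ * δ) +
  ε ^ 2 * T3 fH fA fH (s ^ 2 * δ) + ε ^ 3 * (s ^ 5)⁻¹ * T3 fH fH fH δ

theorem T_GGG {s ε κ δ : ℝ} (hs : 10 ≤ s) (h0 : 0 ≤ δ) (h1 : δ ≤ 1 / 100) :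
    T3 (GG s ε κ) (GG s ε κ) (GG s ε κ) δ = κ ^ 3 * Sf s ε δ := by
  have hs0 : (0 : ℝ) < s := by linarith
  have cA := fA_cc
  have ct := CC.of_cce (tau_cce s ε hs0)
  have cG := CC.of_cce (GG_cce s ε κ hs0)
  have t2 : T3 fA (tau s ε) fA δ = ε * (s ^ 5)⁻¹ * T3 fA fH fA ((s ^ 2)⁻¹ * δ) := by
    have := T3_scale_in fA fH fA δ (s ^ 2) (ε * s ^ 5) (by positivity)
    have e : tau s ε = fun ξ => ε * s ^ 5 * fH (s ^ 2 • ξ) := rfl
    rw [e, this]
    congr 1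
    field_simp
  have t3 : T3 (tau s ε) fA (tau s ε) δ = ε ^ 2 * T3 fH fA fH (s ^ 2 * δ) := by
    have := T3_scale_out fH fA fH δ (s ^ 2) (ε * s ^ 5) (ε * s ^ 5) (by positivity)
    have e : tau s ε = fun ξ => ε * s ^ 5 * fH (s ^ 2 • ξ) := rfl
    rw [e, this]
    congr 1
    field_simp
  have t4 : T3 (tau s ε) (tau s ε) (tau s ε) δ = ε ^ 3 * (s ^ 5)⁻¹ * T3 fH fH fH δ := by
    have := T3_scale fH fH fH δ (s ^ 2) (ε * s ^ 5) (ε * s ^ 5) (ε * s ^ 5) (by positivity)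
    have e : tau s ε = fun ξ => ε * s ^ 5 * fH (s ^ 2 • ξ) := rfl
    rw [e, this]
    congr 1
    field_simp
  rw [Sf, ← t2, ← t3, ← t4, T3_eq cG cG cG.cont, T3_eq cA cA cA.cont, T3_eq cA ct cA.cont,
    T3_eq ct cA ct.cont, T3_eq ct ct ct.cont]
  have h4 := int4 (KK_int cA cA cA.cont δ) (KK_int cA ct cA.cont δ) (KK_int ct cA ct.cont δ)
    (KK_int ct ct ct.cont δ) (κ ^ 3) (κ ^ 3) (κ ^ 3) (κ ^ 3)
  rw [← mul_add, ← mul_add, ← mul_add] at h4
  rw [← h4]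
  refine integral_congr_ae (Eventually.of_forall fun p => ?_)
  obtain ⟨ξ, η⟩ := p
  simp only [KK]
  have hη : (fA η + tau s ε η) ≠ 0 → |η 0| < 51 / 50 := by
    intro hne
    by_cases h : fA η = 0
    · have h' : tau s ε η ≠ 0 := by
        intro h0
        exact hne (by rw [h, h0, add_zero])
      linarith [tau_ne_abs hs h']
    · exact (fA_ne_abs h).2
  have e1 : fA ξ * tau s ε (ξ + δ • η) * (fA η + tau s ε η) = 0 := by
    by_contra hne
    have a := (fA_ne_abs (left_ne_zero_of_mul (left_ne_zero_of_mul hne))).1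
    have b := tau_ne_abs hs (right_ne_zero_of_mul (left_ne_zero_of_mul hne))
    have c := hη (right_ne_zero_of_mul hne)
    simp only [PiLp.add_apply, PiLp.smul_apply, smul_eq_mul] at b
    have d : |ξ 0| ≤ |ξ 0 + δ * η 0| + |δ * η 0| := by
      have := abs_sub (ξ 0 + δ * η 0) (δ * η 0)
      simpa using this
    rw [abs_mul δ, abs_of_nonneg h0] at d
    nlinarith [abs_nonneg (η 0)]
  have e2 : tau s ε ξ * fA (ξ + δ • η) * (fA η + tau s ε η) = 0 := by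
    by_contra hne
    have a := tau_ne_abs hs (left_ne_zero_of_mul (left_ne_zero_of_mul hne))
    have b := (fA_ne_abs (right_ne_zero_of_mul (left_ne_zero_of_mul hne))).1
    have c := hη (right_ne_zero_of_mul hne)
    simp only [PiLp.add_apply, PiLp.smul_apply, smul_eq_mul] at b
    have d := abs_add_le (ξ 0) (δ * η 0)
    rw [abs_mul δ, abs_of_nonneg h0] at d
    nlinarith [abs_nonneg (η 0)]
  simp only [GG]
  linear_combination (κ ^ 3 * DD ξ η δ) * e1 + (κ ^ 3 * DD ξ η δ) * e2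

theorem t_PACK (hF : S_FREP) : S_PACK := by
  obtain ⟨F1, F2, F3, F4, F5⟩ := hF
  obtain ⟨L1, l1, L1'⟩ := T3_lip fA_cce fA_cce
  obtain ⟨L2, l2, L2'⟩ := T3_lip fA_cce fH_cce
  obtain ⟨L3, l3, L3'⟩ := T3_lip fH_cce fA_cce
  obtain ⟨L4, l4, L4'⟩ := T3_lip fH_cce fH_cce
  have hMA := MA_pos
  have hMH := MH_nonneg
  have hI1 := I1_pos
  have hI2 := I2_pos
  have hJ := T3_AAH
  set I : ℝ := (∫ v, beta v) * ∫ v, beta v ^ 2 with hI
  have hIpos : 0 < I := mul_pos hI1 hI2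
  set J : ℝ := -T3 fA fA fH 1 with hJdef
  have hJpos : 0 < J := by linarith
  set Φ : ℝ := |T3 fA fH fA 0| + |T3 fH fA fH 0| + |T3 fH fH fH 0| with hΦ
  have hΦ0 : 0 ≤ Φ := by positivity
  set w : ℝ := (2 * Real.pi) ^ 4 with hw
  have hw0 : 0 < w := by positivity
  set m1 : ℝ := (2 * Real.pi) ^ 2 * MA with hm1
  set m2 : ℝ := (2 * Real.pi) ^ 2 * (MA + MH) with hm2
  have hm1p : 0 < m1 := by positivity
  have hm2p : 0 < m2 := by positivity
  set k1 : ℝ := (Real.sqrt m2)⁻¹ with hk1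
  set k2 : ℝ := (Real.sqrt m1)⁻¹ with hk2
  have hk1p : 0 < k1 := inv_pos.mpr (Real.sqrt_pos.mpr hm2p)
  have hk2p : 0 < k2 := inv_pos.mpr (Real.sqrt_pos.mpr hm1p)
  refine ⟨w * k1 ^ 3 * (4 * I), w * k2 ^ 3 * (8 * I + Φ), w * k1 ^ 3 * J, w * k2 ^ 3 * J,
    w * k2 ^ 3 * (L1 + L2 + L3 + L4) + 1, max 10 (Φ / (4 * I) + 1), by positivity, by positivity,
    by positivity, lt_of_lt_of_le (by norm_num) (le_max_left _ _), ?_⟩
  intro s hs ε hε
  have hs10 : 10 ≤ s := (le_max_left _ _).trans hs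
  have hsΦ : Φ / (4 * I) + 1 ≤ s := (le_max_right _ _).trans hs
  have hs0 : 0 < s := by linarith
  have hε0 : 0 < ε := hε.1
  have hεs : ε ≤ (s ^ 2)⁻¹ := hε.2
  have hs2 : (s ^ 2)⁻¹ ≤ 1 / 100 := by
    rw [one_div]
    exact inv_anti₀ (by norm_num) (le_trans (by norm_num) (pow_le_pow_left₀ (by norm_num) hs10 2))
  have hε1 : ε ≤ 1 := by linarith
  set m : ℝ := (2 * Real.pi) ^ 2 * (MA + ε ^ 2 * MH) with hm
  have hmp : 0 < m := by positivity
  have hmm1 : m1 ≤ m := by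
    rw [hm1, hm]
    have : 0 ≤ ε ^ 2 * MH := by positivity
    gcongr
    linarith
  have hmm2 : m ≤ m2 := by
    rw [hm2, hm]
    have h1 : ε ^ 2 ≤ 1 := pow_le_one₀ hε0.le hε1
    have h2 : ε ^ 2 * MH ≤ MH := mul_le_of_le_one_left hMH h1
    gcongr
  set κ : ℝ := (Real.sqrt m)⁻¹ with hκ
  have hκp : 0 < κ := inv_pos.mpr (Real.sqrt_pos.mpr hmp)
  have hκm : κ ^ 2 * m = 1 := by
    rw [hκ, inv_pow, Real.sq_sqrt hmp.le, inv_mul_cancel₀ hmp.ne']
  have hκ1 : k1 ≤ κ := inv_anti₀ (Real.sqrt_pos.mpr hmp) (Real.sqrt_le_sqrt hmm2)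
  have hκ2 : κ ≤ k2 := inv_anti₀ (Real.sqrt_pos.mpr hm1p) (Real.sqrt_le_sqrt hmm1)
  have hκ13 : k1 ^ 3 ≤ κ ^ 3 := pow_le_pow_left₀ hk1p.le hκ1 3
  have hκ23 : κ ^ 3 ≤ k2 ^ 3 := pow_le_pow_left₀ hκp.le hκ2 3
  set G : E3 → ℝ := GG s ε κ with hG
  have cG : Cce G := GG_cce s ε κ hs0
  obtain ⟨φ, hφ⟩ := F1 G cG
  have hφ' : (φ : E3 → E3) = flow G := funext hφ
  have hpk : ∀ n, packet s φ n = flow (gl s G n) := by
    intro n
    rw [hφ', packet_flow s hs0 G n]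
  have cl : ∀ n, Cce (gl s G n) := fun n => gl_cce s cG n hs0
  -- the trilinear form
  set T : ℕ → ℕ → ℕ → ℝ := fun i j n => T3 (gl s G i) (gl s G j) (gl s G n) 1 with hT
  have tri_eq : ∀ i j n, tri (packet s φ i) (packet s φ j) (packet s φ n) = w * T i j n := by
    intro i j n
    rw [hpk, hpk, hpk, F5 _ _ _ (cl i) (cl j) (cl n), hT]
    simp only [T3, DD, one_smul, one_mul, ← mul_assoc]
  have anti : ∀ i j n, T i j n = -T i n j := fun i j n =>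
    T3_anti (cl j).even (cl n).even
  have shift : ∀ i j n k, T (i + k) (j + k) (n + k) = s ^ (5 * k) * T i j n := fun i j n k =>
    T_shift hs0 G i j n k
  have zero : ∀ i j n, ¬ ((i = j ∧ n ≤ i + 1) ∨ (i = n ∧ j ≤ i + 1) ∨ (j = n ∧ i ≤ j + 1)) →
      T i j n = 0 := fun i j n h => T_zero hs10 i j n h
  -- the table
  have hBform : ∀ i n, n < i → T i i n = s ^ (5 * n) * T (i - n) (i - n) 0 := by
    intro i n h
    have := shift (i - n) (i - n) 0 n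
    rwa [Nat.sub_add_cancel h.le, zero_add] at this
  have hCform : ∀ i, T i i (i + 1) = s ^ (5 * i) * T 0 0 1 := by
    intro i
    have := shift 0 0 1 i
    rwa [zero_add, add_comm 1 i] at this
  have hself : ∀ i j, T i j j = 0 := by
    intro i j
    have := anti i j j
    linarith
  have htab : ∀ i j n, w * T i j n =
      (if i = n ∧ j < n then -(s ^ (5 * j) * (w * T (n - j) (n - j) 0)) else 0)
      + (if i = j ∧ n < i then s ^ (5 * n) * (w * T (i - n) (i - n) 0) else 0)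
      + (if i = j ∧ n = i + 1 then -(s ^ (5 * i) * (-(w * T 0 0 1))) else 0)
      + (if i = n ∧ j = n + 1 then s ^ (5 * n) * (-(w * T 0 0 1)) else 0) := by
    intro i j n
    by_cases hij : i = j
    · subst hij
      by_cases hin : i = n
      · subst hin
        rw [hself]
        simp
      · rcases lt_trichotomy n i with h | h | h
        · rw [if_neg (by omega), if_pos ⟨rfl, h⟩, if_neg (by omega), if_neg (by omega), hBform i n h]
          ring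
        · omega
        · by_cases h1 : n = i + 1
          · subst h1
            rw [if_neg (by omega), if_neg (by omega), if_pos ⟨rfl, rfl⟩, if_neg (by omega), hCform i]
            ring
          · rw [if_neg (by omega), if_neg (by omega), if_neg (by omega), if_neg (by omega),
              zero i i n (by omega)]
            ring
    · by_cases hin : i = n
      · subst hin
        rw [anti]
        rcases lt_trichotomy j i with h | h | h
        · rw [if_pos ⟨rfl, h⟩, if_neg (by omega), if_neg (by omega), if_neg (by omega), hBform i j h]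
          ring
        · omega
        · by_cases h1 : j = i + 1
          · subst h1
            rw [if_neg (by omega), if_neg (by omega), if_neg (by omega), if_pos ⟨rfl, rfl⟩, hCform i]
            ring
          · rw [if_neg (by omega), if_neg (by omega), if_neg (by omega), if_neg (by omega),
              zero i i j (by omega)]
            ring
      · rw [if_neg (by omega), if_neg (by omega), if_neg (by omega), if_neg (by omega)]
        by_cases hjn : j = n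
        · subst hjn
          rw [hself]
          ring
        · rw [zero i j n (by omega)]
          ring
  -- constants
  set μ : ℝ := w * ∫ ξ : E3, G ξ * G ξ * (ξ 0 ^ 2 + ξ 1 ^ 2) * ‖ξ‖ ^ 2 with hμ
  have hμp : 0 < μ := by
    apply mul_pos hw0
    have c1 : Continuous (fun ξ : E3 => G ξ * G ξ * (ξ 0 ^ 2 + ξ 1 ^ 2) * ‖ξ‖ ^ 2) := by
      have := cG.smooth.continuous
      fun_prop
    apply c1.integral_pos_of_hasCompactSupport_nonneg_nonzero (x := P1)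
    · exact ((cG.supp.mul_right (f' := G)).mul_right).mul_right
    · intro ξ
      simp only [Pi.zero_apply]
      have := mul_self_nonneg (G ξ)
      positivity
    · have h1 := fA_P1
      have h2 : tau s ε P1 = 0 := by
        have := fA_tau (s := s) (ε := ε) hs10 P1
        rcases mul_eq_zero.mp this with h | h
        · exact absurd h h1.ne'
        · exact h
      have h3 : G P1 = κ * fA P1 := by rw [hG, GG, h2, add_zero]
      have h4 : 0 < ‖P1‖ := by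
        rw [norm_pos_iff]
        intro h
        have := congrArg (fun v : E3 => v 0) h
        simp at this
      rw [h3, P1_0, P1_1]
      positivity
  have hmassG : (2 * Real.pi) ^ 2 * ∫ ξ, G ξ * G ξ * (ξ 0 ^ 2 + ξ 1 ^ 2) = 1 := by
    rw [hG, mass_GG hs10, ← hκm, hm]
    ring
  -- the interaction with lower levels
  have hlow : ∀ j, 1 ≤ j → w * T j j 0 = -(w * κ ^ 3 * Sf s ε ((s ^ (2 * j))⁻¹)) := by
    intro j hj
    rw [anti, hT]
    simp only []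
    have hd : (s ^ (2 * j))⁻¹ ≤ 1 / 100 := by
      refine le_trans (inv_anti₀ (by positivity) ?_) hs2
      exact pow_le_pow_right₀ (by linarith) (by omega)
    rw [T_low hs0 G j, hG, T_GGG hs10 (by positivity) hd]
    ring
  have hS0 : Sf s ε 0 = -(8 * I) + ε * (s ^ 5)⁻¹ * T3 fA fH fA 0 + ε ^ 2 * T3 fH fA fH 0 +
      ε ^ 3 * (s ^ 5)⁻¹ * T3 fH fH fH 0 := by
    rw [Sf, mul_zero, mul_zero, T3_AAA]
  have hs5 : (s ^ 5)⁻¹ ≤ 1 := inv_le_one_of_one_le₀ (one_le_pow₀ (by linarith))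
  have hs5' : 0 < (s ^ 5)⁻¹ := by positivity
  have hrest : |ε * (s ^ 5)⁻¹ * T3 fA fH fA 0 + ε ^ 2 * T3 fH fA fH 0 +
      ε ^ 3 * (s ^ 5)⁻¹ * T3 fH fH fH 0| ≤ ε * Φ := by
    refine (abs_add_three _ _ _).trans ?_
    rw [abs_mul (ε * (s ^ 5)⁻¹), abs_mul (ε ^ 2), abs_mul (ε ^ 3 * (s ^ 5)⁻¹),
      abs_of_pos (by positivity : 0 < ε * (s ^ 5)⁻¹),
      abs_of_pos (by positivity : 0 < ε ^ 2), abs_of_pos (by positivity : 0 < ε ^ 3 * (s ^ 5)⁻¹)]
    have a1 : ε * (s ^ 5)⁻¹ ≤ ε := mul_le_of_le_one_right hε0.le hs5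
    have a2 : ε ^ 2 ≤ ε := pow_le_of_le_one hε0.le hε1 two_ne_zero
    have a3 : ε ^ 3 * (s ^ 5)⁻¹ ≤ ε := by
      have : ε ^ 3 ≤ ε := pow_le_of_le_one hε0.le hε1 three_ne_zero
      calc ε ^ 3 * (s ^ 5)⁻¹ ≤ ε ^ 3 * 1 := by gcongr
        _ ≤ ε := by linarith
    rw [hΦ, mul_add, mul_add]
    gcongr
  have hεΦ : ε * Φ ≤ 4 * I := by
    have h1 : Φ ≤ 4 * I * s := by
      have : Φ / (4 * I) ≤ s := by linarith
      rwa [div_le_iff₀ (by positivity), mul_comm] at this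
    have h2 : ε * s ≤ 1 := by
      have : ε * s ≤ (s ^ 2)⁻¹ * s := by gcongr
      refine this.trans ?_
      rw [sq, mul_inv, mul_assoc, inv_mul_cancel₀ hs0.ne', mul_one]
      exact inv_le_one_of_one_le₀ (by linarith)
    calc ε * Φ ≤ ε * (4 * I * s) := by gcongr
      _ = 4 * I * (ε * s) := by ring
      _ ≤ 4 * I * 1 := by gcongr
      _ = _ := by ring
  have hεΦ' : ε * Φ ≤ Φ := mul_le_of_le_one_left hΦ0 hε1
  set b : ℝ := -(w * κ ^ 3 * Sf s ε 0) with hb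
  have hbS : b = w * κ ^ 3 * (8 * I - (ε * (s ^ 5)⁻¹ * T3 fA fH fA 0 + ε ^ 2 * T3 fH fA fH 0 +
      ε ^ 3 * (s ^ 5)⁻¹ * T3 fH fH fH 0)) := by
    rw [hb, hS0]
    ring
  have hTC : -(w * T 0 0 1) = w * κ ^ 3 * J * ε := by
    rw [hT]
    simp only []
    rw [hG, T_C hs10]
    rw [hJdef]
    ring
  refine ⟨φ, μ, -(w * T 0 0 1), b, fun j => w * T j j 0, ?_, hμp, ?_, ?_, ?_, ?_, ?_⟩
  · refine ⟨?_, ?_, ?_, ?_⟩
    · intro y
      have := F2 G cG y
      rw [hφ']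
      exact this
    · intro i n
      rw [hpk, hpk, F3 _ _ (cl i) (cl n)]
      split_ifs with h
      · subst h
        rw [gl_mass hs0 G i, hmassG]
      · simp only [hG, gl_mul_zero hs10 h, zero_mul, integral_zero, mul_zero]
    · intro i n
      rw [hpk, hpk, F4 _ _ (cl i) (cl n)]
      split_ifs with h
      · subst h
        rw [gl_grad hs0 G i, hμ, hw]
        ring
      · simp only [hG, gl_mul_zero hs10 h, zero_mul, integral_zero, mul_zero]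
    · intro i j n
      rw [tri_eq, htab]
  · rw [hbS]
    have h1 := (abs_le.mp hrest).2
    have h2 : 4 * I ≤ 8 * I - (ε * (s ^ 5)⁻¹ * T3 fA fH fA 0 + ε ^ 2 * T3 fH fA fH 0 +
      ε ^ 3 * (s ^ 5)⁻¹ * T3 fH fH fH 0) := by linarith
    calc w * k1 ^ 3 * (4 * I) ≤ w * κ ^ 3 * (4 * I) := by gcongr
      _ ≤ _ := by gcongr
  · rw [hbS]
    have h1 := (abs_le.mp hrest).1
    have h2 : 8 * I - (ε * (s ^ 5)⁻¹ * T3 fA fH fA 0 + ε ^ 2 * T3 fH fA fH 0 +
      ε ^ 3 * (s ^ 5)⁻¹ * T3 fH fH fH 0) ≤ 8 * I + Φ := by linarith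
    have h3 : 0 ≤ 8 * I + Φ := by positivity
    calc _ ≤ w * κ ^ 3 * (8 * I + Φ) := by gcongr
      _ ≤ w * k2 ^ 3 * (8 * I + Φ) := by gcongr
  · rw [hTC]
    gcongr
  · rw [hTC]
    gcongr
  · intro j hj
    have hsj : (0 : ℝ) < s ^ (2 * j) := by positivity
    have hd : (s ^ (2 * j))⁻¹ ≤ (s ^ 2)⁻¹ := by
      refine inv_anti₀ (by positivity) ?_
      exact pow_le_pow_right₀ (by linarith) (by omega)
    set δ : ℝ := (s ^ (2 * j))⁻¹ with hδ
    have hδ0 : 0 < δ := by positivity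
    have hδ1 : δ ≤ 1 := by linarith
    have hs2p : (0 : ℝ) < s ^ 2 := by positivity
    have hsδ : s ^ 2 * δ ≤ 1 := by
      calc s ^ 2 * δ ≤ s ^ 2 * (s ^ 2)⁻¹ := by gcongr
        _ = 1 := mul_inv_cancel₀ hs2p.ne'
    have b1 := L1' δ hδ0.le hδ1
    have b2 := L2' ((s ^ 2)⁻¹ * δ) (by positivity)
      (mul_le_one₀ (hs2.trans (by norm_num)) hδ0.le hδ1)
    have b3 := L3' (s ^ 2 * δ) (by positivity) hsδ
    have b4 := L4' δ hδ0.le hδ1
    have hdiff : |Sf s ε δ - Sf s ε 0| ≤ (L1 + L2 + L3 + L4) * δ := by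
      have e : Sf s ε δ - Sf s ε 0 = (T3 fA fA fA δ - T3 fA fA fA 0) +
          ε * (s ^ 5)⁻¹ * (T3 fA fH fA ((s ^ 2)⁻¹ * δ) - T3 fA fH fA 0) +
          ε ^ 2 * (T3 fH fA fH (s ^ 2 * δ) - T3 fH fA fH 0) +
          ε ^ 3 * (s ^ 5)⁻¹ * (T3 fH fH fH δ - T3 fH fH fH 0) := by
        rw [Sf, Sf, mul_zero, mul_zero]
        ring
      rw [e]
      have c2 : |ε * (s ^ 5)⁻¹ * (T3 fA fH fA ((s ^ 2)⁻¹ * δ) - T3 fA fH fA 0)| ≤ L2 * δ := by
        rw [abs_mul, abs_of_pos (by positivity : 0 < ε * (s ^ 5)⁻¹)]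
        have a1 : ε * (s ^ 5)⁻¹ ≤ 1 := mul_le_one₀ hε1 hs5'.le hs5
        calc ε * (s ^ 5)⁻¹ * |T3 fA fH fA ((s ^ 2)⁻¹ * δ) - T3 fA fH fA 0| ≤
            1 * (L2 * ((s ^ 2)⁻¹ * δ)) := by gcongr
          _ ≤ 1 * (L2 * (1 * δ)) := by gcongr; linarith
          _ = _ := by ring
      have c3 : |ε ^ 2 * (T3 fH fA fH (s ^ 2 * δ) - T3 fH fA fH 0)| ≤ L3 * δ := by
        rw [abs_mul, abs_of_pos (by positivity : 0 < ε ^ 2)]
        have a1 : ε ^ 2 * s ^ 2 ≤ 1 := by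
          calc ε ^ 2 * s ^ 2 = ε * (ε * s ^ 2) := by ring
            _ ≤ 1 * ((s ^ 2)⁻¹ * s ^ 2) := by gcongr
            _ = 1 := by rw [one_mul, inv_mul_cancel₀ hs2p.ne']
        calc ε ^ 2 * |T3 fH fA fH (s ^ 2 * δ) - T3 fH fA fH 0| ≤
            ε ^ 2 * (L3 * (s ^ 2 * δ)) := by gcongr
          _ = (ε ^ 2 * s ^ 2) * (L3 * δ) := by ring
          _ ≤ 1 * (L3 * δ) := by gcongr
          _ = _ := by ring
      have c4 : |ε ^ 3 * (s ^ 5)⁻¹ * (T3 fH fH fH δ - T3 fH fH fH 0)| ≤ L4 * δ := by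
        rw [abs_mul, abs_of_pos (by positivity : 0 < ε ^ 3 * (s ^ 5)⁻¹)]
        have a1 : ε ^ 3 * (s ^ 5)⁻¹ ≤ 1 := by
          have : ε ^ 3 ≤ 1 := pow_le_one₀ hε0.le hε1
          calc ε ^ 3 * (s ^ 5)⁻¹ ≤ 1 * 1 := by gcongr
            _ = 1 := by norm_num
        calc ε ^ 3 * (s ^ 5)⁻¹ * |T3 fH fH fH δ - T3 fH fH fH 0| ≤ 1 * (L4 * δ) := by gcongr
          _ = _ := by ring
      refine (abs_add_le _ _).trans ?_
      have := abs_add_three (T3 fA fA fA δ - T3 fA fA fA 0)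
        (ε * (s ^ 5)⁻¹ * (T3 fA fH fA ((s ^ 2)⁻¹ * δ) - T3 fA fH fA 0))
        (ε ^ 2 * (T3 fH fA fH (s ^ 2 * δ) - T3 fH fA fH 0))
      linarith
    have hfin : |w * T j j 0 - b| ≤ w * k2 ^ 3 * (L1 + L2 + L3 + L4) * δ := by
      rw [hlow j hj, hb]
      have e : -(w * κ ^ 3 * Sf s ε (s ^ (2 * j))⁻¹) - -(w * κ ^ 3 * Sf s ε 0) =
          -(w * κ ^ 3) * (Sf s ε δ - Sf s ε 0) := by rw [hδ]; ring
      rw [e, abs_mul, abs_neg, abs_of_pos (by positivity)]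
      calc w * κ ^ 3 * |Sf s ε δ - Sf s ε 0| ≤ w * k2 ^ 3 * ((L1 + L2 + L3 + L4) * δ) := by gcongr
        _ = _ := by ring
    calc |w * T j j 0 - b| * s ^ (2 * j) ≤
        w * k2 ^ 3 * (L1 + L2 + L3 + L4) * δ * s ^ (2 * j) := by gcongr
      _ = w * k2 ^ 3 * (L1 + L2 + L3 + L4) := by
          rw [hδ, mul_assoc, inv_mul_cancel₀ hsj.ne', mul_one]
      _ ≤ _ := by linarith

end

end Pool.Agent.Y784.NS
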